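import Pool.Agent.H36.NA.Df

set_option autoImplicit false

/-!
# Interface of block B, part 1: blow-up data exist, energy density, local bound (here with sorry)
-/

namespace H50NA

open MeasureTheory Set Filter Topology Metric

noncomputable section

variable {K : Type} [Field K] (F : VF K) {V : Type} [AddCommGroup V] [Module K V] [Module.Finite K V]

/-- THEOREM Blow (B1-B5) -/
theorem blow (hR : Rf F) {u : ℂ → Nm F V} {O : Set ℂ} (hu : LM u O) {x0 : ℂ} (hx : x0 ∈ O) :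
    ∃ (N : ℕ) (E : Fin N → Submodule K V) (a : Fin N → ℂ), BD F u x0 N E a := by
  sorry

/-- B6: the energy density at x0 -/
theorem bd_energy {u : ℂ → Nm F V} {O : Set ℂ} (hu : LM u O) {x0 : ℂ} (hx : x0 ∈ O) {N : ℕ}
    {E : Fin N → Submodule K V} {a : Fin N → ℂ} (h : BD F u x0 N E a) (t : ℂ) :
    Tendsto (fun r : ℝ => ⨍ y in ball x0 r, sp u t y ^ 2) (𝓝[>] 0) (𝓝 (Qf E a t)) := by
  sorry

/-- B7: local bound -/
theorem bd_local {u : ℂ → Nm F V} {O : Set ℂ} (hu : LM u O) {x0 : ℂ} (hx : x0 ∈ O) {N : ℕ}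
    {E : Fin N → Submodule K V} {a : Fin N → ℂ} (h : BD F u x0 N E a) {d : ℝ} (hd : 0 < d) :
    ∃ r : ℝ, 0 < r ∧ ball x0 r ⊆ O ∧ ∀ y ∈ ball x0 r, ∀ y' ∈ ball x0 r,
      dist (u y) (u y') ^ 2 ≤ Qf E a (y' - y) + d ^ 2 * dist y y' ^ 2 := by
  sorry

end

end H50NA
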