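import Pool.Agent.H1.NA.BI
import Pool.Agent.H50.NA.L7
import Pool.Agent.H31.NA.GI
import Pool.Agent.H31.NA.GO
import Pool.Agent.H46.SB.Mk

set_option autoImplicit false

/-!
# MP_b319aa_NA, block B9 (structure theorem): common definitions (helper36; no row)
-/

namespace H36NA

open H50NA H1NA MeasureTheory Set Filter Topology Metric InnerProductSpace

noncomputable section

/-- the real inner product of the plane -/
def ip (a z : ℂ) : ℝ := a.re * z.re + a.im * z.im

/-- the gradient of a real function as a complex number -/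
def gr (T : ℂ → ℝ) (y : ℂ) : ℂ := ⟨fderiv ℝ T y 1, fderiv ℝ T y Complex.I⟩

theorem ip_gr (T : ℂ → ℝ) (y t : ℂ) : ip (gr T y) t = fderiv ℝ T y t := by
  have h : t = t.re • (1 : ℂ) + t.im • Complex.I := by
    apply Complex.ext <;> simp
  have h2 : fderiv ℝ T y t = t.re * fderiv ℝ T y 1 + t.im * fderiv ℝ T y Complex.I := by
    conv_lhs => rw [h]
    rw [map_add, map_smul, map_smul, smul_eq_mul, smul_eq_mul]
  rw [h2]
  unfold ip gr
  ring

theorem ip_add (a t t' : ℂ) : ip a (t + t') = ip a t + ip a t' := by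
  unfold ip
  simp only [Complex.add_re, Complex.add_im]
  ring

theorem ip_smul (a : ℂ) (s : ℝ) (t : ℂ) : ip a ((s : ℂ) * t) = s * ip a t := by
  unfold ip
  simp only [Complex.mul_re, Complex.mul_im, Complex.ofReal_re, Complex.ofReal_im]
  ring

theorem ip_sub (a b t : ℂ) : ip (a - b) t = ip a t - ip b t := by
  unfold ip
  simp only [Complex.sub_re, Complex.sub_im]
  ring

theorem abs_ip_le (a t : ℂ) : |ip a t| ≤ ‖a‖ * ‖t‖ := L4_inner_bd a t

section

variable {K : Type} [Field K] {V : Type} [AddCommGroup V] [Module K V]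

/-- power sum of degree j in the direction t -/
def pwr {N : ℕ} (E : Fin N → Submodule K V) (a : Fin N → ℂ) (j : ℕ) (t : ℂ) : ℝ :=
  ∑ b, nn E b * ip (a b) t ^ j

/-- power sum of the conjugates -/
def pw {N : ℕ} (E : Fin N → Submodule K V) (a : Fin N → ℂ) (j : ℕ) : ℂ :=
  ∑ b, ((nn E b : ℝ) : ℂ) * (starRingEnd ℂ (a b)) ^ j

end

end

end H36NA
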