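import Pool.Agent.H36.NA.Df

/-!
# Row B9La (MP_b319aa_NA, B9): two independent separating directions (about 60 lines)

PROOF. t s := 1 + s I (s real). For b <> b': ip (a b) (t s) - ip (a b') (t s) = (a b - a b').re + s (a b - a b').im, and a b - a b' <> 0: it vanishes for at most one s (if the imaginary part is 0 the real part is not 0: for no s). So the set of bad s is finite;
choose two different good s1, s2 (Set.Infinite of the complement in ℝ). ![1 + s1 I, 1 + s2 I] is linearly independent over ℝ for s1 <> s2 (LinearIndependent.pair_iff: x (1 + s1 I) + y (1 + s2 I) = 0 gives x + y = 0, x s1 + y s2 = 0).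
-/

set_option autoImplicit false

namespace H36NA

theorem two_dir {N : ℕ} {a : Fin N → ℂ} (ha : Function.Injective a) :
    ∃ t1 t2 : ℂ, LinearIndependent ℝ ![t1, t2] ∧ Function.Injective (fun b => ip (a b) t1) ∧
      Function.Injective (fun b => ip (a b) t2) := by
  classical
  -- the bad parameters
  let bad : Set ℝ := ⋃ p : Fin N × Fin N, {s : ℝ | p.1 ≠ p.2 ∧
    ip (a p.1) (1 + s * Complex.I) = ip (a p.2) (1 + s * Complex.I)}
  have hip : ∀ (z : ℂ) (s : ℝ), ip z (1 + s * Complex.I) = z.re + s * z.im := by
    intro z s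
    simp [ip]
    try ring
  have hfin : bad.Finite := by
    apply Set.finite_iUnion
    rintro ⟨b, b'⟩
    apply Set.Subsingleton.finite
    rintro s ⟨hne, hs⟩ s' ⟨-, hs'⟩
    dsimp only at hne hs hs'
    rw [hip, hip] at hs hs'
    have h1 : a b - a b' ≠ 0 := sub_ne_zero.2 fun h => hne (ha h)
    have h2 : (s - s') * ((a b).im - (a b').im) = 0 := by linear_combination hs - hs'
    rcases mul_eq_zero.1 h2 with h3 | h3
    · exact sub_eq_zero.1 h3
    · exfalso
      apply h1
      have h4 : (a b).im = (a b').im := sub_eq_zero.1 h3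
      rw [h4] at hs
      have h5 : (a b).re = (a b').re := by linarith
      rw [sub_eq_zero]
      exact Complex.ext h5 h4
  have hinf : (badᶜ : Set ℝ).Infinite := hfin.infinite_compl
  obtain ⟨s1, h1⟩ := hinf.nonempty
  obtain ⟨s2, h2, hne⟩ := hinf.nontrivial.exists_ne s1
  have hgood : ∀ s ∈ badᶜ, Function.Injective (fun b => ip (a b) (1 + s * Complex.I)) := by
    intro s hs b b' hb
    by_contra hcon
    apply hs
    exact Set.mem_iUnion.2 ⟨(b, b'), hcon, hb⟩
  refine ⟨1 + s1 * Complex.I, 1 + s2 * Complex.I, ?_, hgood s1 h1, hgood s2 h2⟩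
  rw [LinearIndependent.pair_iff]
  intro x y hxy
  have hre := congrArg Complex.re hxy
  have him := congrArg Complex.im hxy
  simp at hre him
  have h3 : y = -x := by linarith
  rw [h3] at him
  have h4 : x * (s1 - s2) = 0 := by linarith
  have h5 : x = 0 := by
    rcases mul_eq_zero.1 h4 with h | h
    · exact h
    · exact absurd (sub_eq_zero.1 h).symm hne
  exact ⟨h5, by rw [h3, h5, neg_zero]⟩

end H36NA
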