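import Mathlib

/-!
# Row B9Sj (MP_b319aa_NA, B9): lists with few values which are close to separated numbers are constant (about 80 lines; Mathlib only)

PROOF. Let L be the finite set of all values la b i (Finset.image over Σ b, Fin (d b)); L is contained in the image of c, so card L <= N' <= N. For v in L there is exactly one b with |v - g b| <= del (existence: hn; uniqueness: if |v - g b| <= del and
|v - g b'| <= del then |g b - g b'| <= 2 del, so b = b' by hsep). This defines a map L → Fin N, surjective since d b > 0 (la b 0 is mapped to b). Since card L <= N = card (Fin N), it is injective (Finset / Function.Surjective.injective_of_fintype-type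
argument: e.g. Function.Surjective.bijective_of_nat_card_le, or Fintype.card and Finset.card_image). la b i and la b i' are both mapped to b, so they are equal.
-/

set_option autoImplicit false

namespace H36NA

theorem list_const {N N' : ℕ} (hN : N' ≤ N) {d : Fin N → ℕ} (hd : ∀ b, 0 < d b)
    (la : (b : Fin N) → Fin (d b) → ℝ) (c : Fin N' → ℝ) (hc : ∀ b i, ∃ k, la b i = c k)
    {g : Fin N → ℝ} {del : ℝ} (hsep : ∀ b b', b ≠ b' → 2 * del < |g b - g b'|)
    (hn : ∀ b i, |la b i - g b| ≤ del) : ∀ b i i', la b i = la b i' := by
  have huniq : ∀ b b' v, |v - g b| ≤ del → |v - g b'| ≤ del → b = b' := by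
    intro b b' v h1 h2
    by_contra h3
    have h4 := hsep b b' h3
    have h5 : |g b - g b'| ≤ |v - g b| + |v - g b'| := by
      have h6 := abs_sub (v - g b') (v - g b)
      have h7 : v - g b' - (v - g b) = g b - g b' := by ring
      rw [h7] at h6
      linarith
    linarith
  choose k hk using fun b => hc b ⟨0, hd b⟩
  have hinj : Function.Injective k := by
    intro b b' h
    have h1 := hn b ⟨0, hd b⟩
    have h2 := hn b' ⟨0, hd b'⟩
    rw [hk, h, ← hk b'] at h1
    exact huniq b b' _ h1 h2
  have hbij : Function.Bijective k := by
    rw [Fintype.bijective_iff_injective_and_card]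
    refine ⟨hinj, ?_⟩
    have h1 := Fintype.card_le_of_injective k hinj
    rw [Fintype.card_fin, Fintype.card_fin] at h1 ⊢
    omega
  have hmain : ∀ b i, la b i = la b ⟨0, hd b⟩ := by
    intro b i
    obtain ⟨j, hj⟩ := hc b i
    obtain ⟨b', hb'⟩ := hbij.2 j
    have h1 : la b i = la b' ⟨0, hd b'⟩ := by rw [hj, ← hb', ← hk]
    have h2 := hn b i
    rw [h1] at h2
    have h3 := huniq b b' _ h2 (hn b' ⟨0, hd b'⟩)
    subst h3
    exact h1
  intro b i i'
  rw [hmain b i, hmain b i']

end H36NA
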