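import Pool.Agent.H36.NA.Sf
import Pool.Agent.H36.NA.Sj

set_option autoImplicit false

/-!
# Row B9Lb (MP_b319aa_NA, B9): the energy density near a point where the number of different gradients is maximal (about 90 lines)

PROOF. If N = 0 or N = 1 take any del > 0; in general del > 0 with 2 del < |ip (a b) t - ip (a b') t| for all b <> b' (finitely many positive numbers, hinj). r from near_list with this del. For y in ball x0 r, data (N', E', a') at y with N' <= N, la from near_list.
Every la b i is ip (a' k) t for some k: (2) with φ = indicator of {la b i} (if no k: right side 0, left side >= 1). list_const with d b = finrank K (E b) > 0 (hB.nz, Submodule.one_le_finrank_iff), c k = ip (a' k) t, g b = ip (a b) t, (3). So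
la b i = la b i' for all i, i', and with (1): finrank (E b) * la b i = nn E b * ip (gr (T b) y) t, so la b i = ip (gr (T b) y) t. (2) with φ = square: the claim.
-/

namespace H36NA

open H50NA H1NA MeasureTheory Set Filter Topology Metric InnerProductSpace

variable {K : Type} [Field K] (F : VF K) {V : Type} [AddCommGroup V] [Module K V] [Module.Finite K V]

private theorem B9Lb_del {N : ℕ} {g : Fin N → ℝ} (hg : Function.Injective g) :
    ∃ del : ℝ, 0 < del ∧ ∀ b b', b ≠ b' → 2 * del < |g b - g b'| := by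
  have h1 : ∀ᶠ del : ℝ in 𝓝[>] 0, ∀ b b', b ≠ b' → 2 * del < |g b - g b'| := by
    rw [eventually_all]
    intro b
    rw [eventually_all]
    intro b'
    by_cases h : b = b'
    · exact Eventually.of_forall fun _ h' => absurd h h'
    · have h2 : 0 < |g b - g b'| := abs_pos.2 (sub_ne_zero.2 fun h3 => h (hg h3))
      have h3 : Tendsto (fun del : ℝ => 2 * del) (𝓝[>] 0) (𝓝 0) := by
        have h4 : Continuous fun del : ℝ => 2 * del := by fun_prop
        have h5 := h4.tendsto 0
        rw [mul_zero] at h5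
        exact h5.mono_left nhdsWithin_le_nhds
      exact (h3.eventually_lt_const h2).mono fun _ h4 _ => h4
  obtain ⟨del, h2, h3⟩ := (h1.and self_mem_nhdsWithin).exists
  exact ⟨del, h3, h2⟩

theorem dens_max {u : ℂ → Nm F V} {O : Set ℂ} (hu : LM u O) {x0 : ℂ} (hx : x0 ∈ O) {N : ℕ}
    {E : Fin N → Submodule K V} {a : Fin N → ℂ} (hB : Blow F u x0 N E a) {r0 : ℝ} (hr0 : 0 < r0)
    (hs : ∀ y ∈ ball x0 r0, SpD E (u y).1) {T : Fin N → ℂ → ℝ}
    (hT1 : ∀ b, HarmonicOnNhd (T b) (ball x0 r0))
    (hT2 : ∀ b, ∀ y ∈ ball x0 r0, ∀ z ∈ ball x0 r0,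
      rd F (rs (E b) (u y).1) (rs (E b) (u z).1) = nn E b * (T b z - T b y))
    (hT3 : ∀ b, gr (T b) x0 = a b) {t : ℂ} (hinj : Function.Injective (fun b => ip (a b) t)) :
    ∃ r : ℝ, 0 < r ∧ r ≤ r0 ∧ ball x0 r ⊆ O ∧ ∀ y ∈ ball x0 r, ∀ (N' : ℕ)
      (E' : Fin N' → Submodule K V) (a' : Fin N' → ℂ), Blow F u y N' E' a' → N' ≤ N →
      ∑ k, nn E' k * ip (a' k) t ^ 2 = ∑ b, nn E b * ip (gr (T b) y) t ^ 2 := by
  obtain ⟨del, hdel, hsep⟩ := B9Lb_del hinj
  obtain ⟨r, hr, hrr, hrO, hy⟩ := near_list F hu hx hB hr0 hs hT1 hT2 hT3 t hdel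
  refine ⟨r, hr, hrr, hrO, fun y hyb N' E' a' hB' hN => ?_⟩
  obtain ⟨la, h1, h2, h3⟩ := hy y hyb N' E' a' hB'
  have hd : ∀ b, 0 < Module.finrank K (E b) := fun b => by
    have := (Submodule.nontrivial_iff_ne_bot).2 (hB.nz b)
    exact Module.finrank_pos
  have hc : ∀ b i, ∃ k, la b i = ip (a' k) t := by
    intro b i
    by_contra hne
    push Not at hne
    have h4 := h2 (fun x => if x = la b i then 1 else 0)
    have h5 : ∑ k, nn E' k * (if ip (a' k) t = la b i then (1:ℝ) else 0) = 0 :=
      Finset.sum_eq_zero fun k _ => by rw [if_neg (hne k).symm, mul_zero]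
    simp only [h5] at h4
    rw [Finset.sum_eq_zero_iff_of_nonneg (fun b' _ => Finset.sum_nonneg fun i' _ => by split_ifs <;> norm_num)] at h4
    have h6 := h4 b (Finset.mem_univ b)
    rw [Finset.sum_eq_zero_iff_of_nonneg (fun i' _ => by split_ifs <;> norm_num)] at h6
    have h7 := h6 i (Finset.mem_univ i)
    rw [if_pos rfl] at h7
    exact one_ne_zero h7
  have hcst := list_const hN hd la (fun k => ip (a' k) t) hc hsep h3
  have hval : ∀ b i, la b i = ip (gr (T b) y) t := by
    intro b i
    have h4 := h1 b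
    rw [Finset.sum_congr rfl fun i' _ => hcst b i' i, Finset.sum_const, Finset.card_univ, Fintype.card_fin,
      nsmul_eq_mul] at h4
    have h5 : (Module.finrank K (E b) : ℝ) ≠ 0 := Nat.cast_ne_zero.2 (hd b).ne'
    exact mul_left_cancel₀ h5 h4
  have h4 := h2 (fun x => x ^ 2)
  simp only [hval] at h4
  rw [← h4]
  refine Finset.sum_congr rfl fun b _ => ?_
  rw [Finset.sum_const, Finset.card_univ, Fintype.card_fin, nsmul_eq_mul]
  rfl

end H36NA
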