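import Pool.Agent.H36.NA.Df

/-!
# Row B9Lc (MP_b319aa_NA, B9): squared speeds almost everywhere from the densities of the blow-up data (about 110 lines)

PROOF. O' := ball x0 r, LM u O' (lm_mono). It is enough to prove the claim a.e. on ball x0 r' for every r' < r (countable union r' = r - 1/n; or directly with a locally integrable cut-off). Fix r' < r; f := indicator (closedBall x0 r') of sp u t ^ 2. u is Lipschitz with
some constant L on the compact set closedBall x0 ((r + r')/2) (hu.lip), so 0 <= sp u t y <= L ‖t‖ for y in ball x0 ((r+r')/2) (sp_bd for the open ball), sp_meas: f is integrable, hence LocallyIntegrable.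
IsUnifLocDoublingMeasure.ae_tendsto_average f (with the constant 1, w = y, δ → 0+): for a.e. y the averages of f over closedBall y δ tend to f y. For y in ball x0 r' and δ small closedBall y δ is in ball x0 r', so these are averages of sp u t ^2 over closedBall y δ, equal to
the averages over ball y δ (the sphere has measure 0: Measure.addHaar_sphere; ball_ae_eq_closedBall / setAverage congruence). By blow_ex there are data at y, and by dens the averages over ball y δ tend to ∑ nn E' k * ip (a' k) t ^ 2 = Q y (hQ). Uniqueness of limits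
(the filter 𝓝[>] 0 is NeBot): sp u t y ^ 2 = Q y for a.e. y in ball x0 r'.
-/

set_option autoImplicit false

namespace H36NA

open H50NA H1NA MeasureTheory Set Filter Topology Metric

theorem B9Lc_avg {g : ℂ → ℝ} {x0 : ℂ} {r' : ℝ} (hm : AEStronglyMeasurable g (volume.restrict (ball x0 r'))) {M : ℝ}
    (hb : ∀ y ∈ ball x0 r', ‖g y‖ ≤ M) :
    ∀ᵐ y : ℂ, y ∈ ball x0 r' → Tendsto (fun δ : ℝ => ⨍ z in ball y δ, g z) (𝓝[>] 0) (𝓝 (g y)) := by
  have : IsFiniteMeasure ((volume : Measure ℂ).restrict (ball x0 r')) :=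
    ⟨by rw [Measure.restrict_apply_univ]; exact measure_ball_lt_top⟩
  have hint : IntegrableOn g (ball x0 r') := by
    refine Integrable.of_bound hm M ?_
    rw [ae_restrict_iff' measurableSet_ball]
    exact Eventually.of_forall hb
  have hint2 : Integrable ((ball x0 r').indicator g) := (integrable_indicator_iff measurableSet_ball).2 hint
  have h1 := IsUnifLocDoublingMeasure.ae_tendsto_average (volume : Measure ℂ)
    hint2.locallyIntegrable 1
  filter_upwards [h1] with y h2 hy
  have h3 := h2 (ι := ℝ) (l := 𝓝[>] (0 : ℝ)) (fun _ => y) (fun δ => δ) tendsto_id (by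
    filter_upwards [self_mem_nhdsWithin] with δ hδ
    rw [one_mul]
    exact mem_closedBall_self (le_of_lt hδ))
  rw [Set.indicator_of_mem hy] at h3
  refine h3.congr' ?_
  have h4 : ∀ᶠ δ : ℝ in 𝓝[>] 0, δ < r' - dist y x0 :=
    mem_nhdsWithin_of_mem_nhds (Iio_mem_nhds (sub_pos.2 (mem_ball.1 hy)))
  filter_upwards [h4] with δ h5
  have h6 : (ball y δ : Set ℂ) =ᵐ[volume] closedBall y δ :=
    ae_eq_of_subset_of_measure_ge ball_subset_closedBall
      (Measure.addHaar_closedBall_eq_addHaar_ball volume y δ).le measurableSet_ball.nullMeasurableSet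
      measure_closedBall_lt_top.ne
  rw [setAverage_congr h6]
  refine setAverage_congr_fun measurableSet_closedBall (Eventually.of_forall fun z hz => ?_)
  apply Set.indicator_of_mem
  rw [mem_ball]
  have h7 := mem_closedBall.1 hz
  linarith [dist_triangle z y x0]

variable {K : Type} [Field K] (F : VF K) {V : Type} [AddCommGroup V] [Module K V] [Module.Finite K V]

theorem sp_ae (hR : Rf F) {u : ℂ → Nm F V} {O : Set ℂ} (hu : LM u O) {x0 : ℂ} {r : ℝ}
    (hr : ball x0 r ⊆ O) (t : ℂ) {Q : ℂ → ℝ} (hQ : ∀ y ∈ ball x0 r, ∀ (N' : ℕ)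
      (E' : Fin N' → Submodule K V) (a' : Fin N' → ℂ), Blow F u y N' E' a' →
      ∑ k, nn E' k * ip (a' k) t ^ 2 = Q y) :
    ∀ᵐ y ∂(volume.restrict (ball x0 r)), sp u t y ^ 2 = Q y := by
  have key : ∀ r' : ℝ, r' < r → ∀ᵐ y : ℂ, y ∈ ball x0 r' → sp u t y ^ 2 = Q y := by
    intro r' hr'
    have hsub : closedBall x0 r' ⊆ O := (closedBall_subset_ball hr').trans hr
    have hsub' : ball x0 r' ⊆ O := ball_subset_closedBall.trans hsub
    obtain ⟨L, hL⟩ := hu.lip _ hsub (isCompact_closedBall x0 r')
    have hsp : ∀ y ∈ ball x0 r', 0 ≤ sp u t y ∧ sp u t y ≤ L * ‖t‖ := by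
      intro y hy
      exact sp_bd isOpen_ball (fun x hx z hz => hL x (ball_subset_closedBall hx) z
        (ball_subset_closedBall hz)) t y hy
    have hlpo : Lpo u (ball x0 r') := fun C hC hc => hu.lip C (hC.trans hsub') hc
    have hm := (sp_meas isOpen_ball hlpo t).pow 2
    have h1 := B9Lc_avg (g := fun y => sp u t y ^ 2) hm (M := (L * ‖t‖) ^ 2) (by
      intro y hy
      obtain ⟨h2, h3⟩ := hsp y hy
      rw [Real.norm_eq_abs, abs_of_nonneg (sq_nonneg _)]
      exact pow_le_pow_left₀ h2 h3 2)
    filter_upwards [h1] with y h2 hy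
    have hyr : y ∈ ball x0 r := ball_subset_ball hr'.le hy
    obtain ⟨N', E', a', hB⟩ := blow_ex F hR hu (hr hyr)
    have h3 := dens F hu (hr hyr) hB t
    have h4 : ∑ b, nn E' b * ((a' b).re * t.re + (a' b).im * t.im) ^ 2 = Q y := hQ y hyr N' E' a' hB
    rw [h4] at h3
    exact tendsto_nhds_unique (h2 hy) h3
  rw [ae_restrict_iff' measurableSet_ball]
  have h5 : ∀ᵐ y : ℂ, ∀ n : ℕ, y ∈ ball x0 (r - 1 / ((n : ℝ) + 1)) → sp u t y ^ 2 = Q y := by
    rw [ae_all_iff]
    intro n
    exact key _ (by linarith [Nat.one_div_pos_of_nat (α := ℝ) (n := n)])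
  filter_upwards [h5] with y h6 hy
  obtain ⟨n, hn⟩ := exists_nat_one_div_lt (sub_pos.2 (mem_ball.1 hy))
  apply h6 n
  rw [mem_ball]
  linarith

end H36NA
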