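import Pool.Agent.H50.NA.XI

/-!
# Row B9Sk (MP_b319aa_NA, B9): a map with vanishing speeds in two independent directions is constant (about 100 lines)

PROOF. O := ball x0 r open, f continuous on O (Lpo: for x in O a closed ball around x in O is compact, f is Lipschitz on it).
(1) Let t be t1 or t2, closedBall x (rho + s ‖t‖) in O, rho, s > 0. dq_le: ∫_{ball x rho} dist (f (y + s t)) (f y)^2 <= s^2 ∫_{ball x (rho + s‖t‖)} sp f t^2 = 0 (sp = 0 a.e.). The integrand is non negative and continuous on ball x rho, so it vanishes a.e. and by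
    continuity everywhere on ball x rho (a continuous function on an open set which vanishes a.e. vanishes: Continuous.ae_eq_iff_eq-type, or MeasureTheory.Measure.eqOn_open_of_ae_eq). So f (x + s t) = f x whenever closedBall x (s ‖t‖) lies in O with
    some room: i.e. for x in O and ‖x - x0‖ + s ‖t‖ < r (take rho small), s > 0; the same for s < 0 by replacing x by x + s t... (if also ‖x + s t - x0‖ + |s| ‖t‖ < r).
(2) f is locally constant: x in O, d := r - ‖x - x0‖ > 0. By linear independence (finite dimension 2) every h in ℂ is s1 t1 + s2 t2 with |s1|, |s2| <= C ‖h‖ (C depends on t1, t2 only; e.g. Basis / LinearEquiv to ℝ × ℝ is continuous, or Cramer). For ‖h‖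
    small (C ‖h‖ (‖t1‖ + ‖t2‖) < d/4): f (x + h) = f (x + s1 t1) = f x by (1) for both signs.
(3) ball x0 r is preconnected, so a locally constant function is constant there: e.g. IsPreconnected.constant_of_mapsTo / IsLocallyConstant, or apply (convex_ball).isPreconnected.  {y in O | f y = f x0} is open and closed in O.
    [Alternative: walk along the segment from x0 to y: the set of parameters is open and closed in [0,1].]
-/

set_option autoImplicit false

namespace H36NA

open H50NA MeasureTheory Set Filter Topology Metric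

theorem Sk_cont {X : Type} [MetricSpace X] {f : ℂ → X} {x0 : ℂ} {r : ℝ}
    (h : Lpo f (ball x0 r)) : ContinuousOn f (ball x0 r) := by
  intro x hx
  obtain ⟨d, hd, hsub⟩ := Metric.nhds_basis_closedBall.mem_iff.1 (isOpen_ball.mem_nhds hx)
  obtain ⟨L, hL⟩ := h _ hsub (isCompact_closedBall x d)
  have h1 : Tendsto (fun y => L * dist y x) (𝓝 x) (𝓝 0) := by
    have h2 : Tendsto (fun y => L * dist y x) (𝓝 x) (𝓝 (L * dist x x)) :=
      (continuous_const.mul (continuous_id.dist continuous_const)).tendsto x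
    rwa [dist_self, mul_zero] at h2
  have h3 : Tendsto f (𝓝 x) (𝓝 (f x)) := by
    rw [tendsto_iff_dist_tendsto_zero]
    refine squeeze_zero' (Eventually.of_forall fun y => dist_nonneg) ?_ h1
    filter_upwards [closedBall_mem_nhds x hd] with y hy
    exact hL y hy x (mem_closedBall_self hd.le)
  exact (show ContinuousAt f x from h3).continuousWithinAt

theorem Sk_key {X : Type} [MetricSpace X] {f : ℂ → X} {x0 : ℂ} {r : ℝ}
    (h : Lpo f (ball x0 r)) {t : ℂ}
    (h1 : ∀ᵐ y ∂(volume.restrict (ball x0 r)), sp f t y = 0) {x : ℂ} {s : ℝ} (hs : 0 < s)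
    (hx : ‖x - x0‖ + s * ‖t‖ < r) : f (x + (s : ℂ) * t) = f x := by
  obtain ⟨rho, hrho0, hrho⟩ : ∃ rho : ℝ, 0 < rho ∧ ‖x - x0‖ + (rho + s * ‖t‖) < r :=
    ⟨(r - (‖x - x0‖ + s * ‖t‖)) / 2, by linarith, by linarith⟩
  have hst : 0 ≤ s * ‖t‖ := mul_nonneg hs.le (norm_nonneg t)
  have hsub : closedBall x (rho + s * ‖t‖) ⊆ ball x0 r := by
    intro y hy
    rw [mem_closedBall] at hy
    rw [mem_ball]
    have := dist_triangle y x x0
    rw [dist_eq_norm x x0] at this
    linarith
  have hsub0 : closedBall x rho ⊆ ball x0 r :=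
    (closedBall_subset_closedBall (by linarith)).trans hsub
  have hcont := Sk_cont h
  have e1 : ∫ y in ball x (rho + s * ‖t‖), sp f t y ^ 2 = 0 := by
    apply integral_eq_zero_of_ae
    have h2 := ae_restrict_of_ae_restrict_of_subset (ball_subset_closedBall.trans hsub) h1
    filter_upwards [h2] with y hy
    rw [hy]
    simp
  have e2 := dq_le isOpen_ball h t hrho0 hs hsub
  rw [e1, mul_zero] at e2
  have gcont : ContinuousOn (fun y => dist (f (y + (s : ℂ) * t)) (f y) ^ 2) (closedBall x rho) := by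
    have c1 : ContinuousOn (fun y => f (y + (s : ℂ) * t)) (closedBall x rho) := by
      have c0 : ContinuousOn (fun y : ℂ => y + (s : ℂ) * t) (closedBall x rho) := by fun_prop
      refine hcont.comp c0 fun y hy => ?_
      apply hsub
      rw [mem_closedBall] at hy ⊢
      have h3 : dist (y + (s : ℂ) * t) x ≤ dist (y + (s : ℂ) * t) y + dist y x := dist_triangle _ _ _
      have h4 : dist (y + (s : ℂ) * t) y = s * ‖t‖ := by
        rw [dist_eq_norm, add_sub_cancel_left, norm_mul, Complex.norm_real, Real.norm_of_nonneg hs.le]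
      linarith
    have c2 := hcont.mono hsub0
    exact (continuous_dist.comp_continuousOn (c1.prodMk c2)).pow 2
  have e3 : ∫ y in ball x rho, dist (f (y + (s : ℂ) * t)) (f y) ^ 2 = 0 :=
    le_antisymm e2 (integral_nonneg fun y => sq_nonneg _)
  have hint : IntegrableOn (fun y => dist (f (y + (s : ℂ) * t)) (f y) ^ 2) (ball x rho) :=
    (gcont.integrableOn_compact (isCompact_closedBall x rho)).mono_set ball_subset_closedBall
  have e4 := (setIntegral_eq_zero_iff_of_nonneg_ae (Eventually.of_forall fun y => sq_nonneg _) hint).1 e3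
  have e5 := Measure.eqOn_open_of_ae_eq e4 isOpen_ball (gcont.mono ball_subset_closedBall)
    continuousOn_const (mem_ball_self hrho0)
  have e6 : dist (f (x + (s : ℂ) * t)) (f x) ^ 2 = 0 := e5
  exact dist_eq_zero.1 (pow_eq_zero_iff (two_ne_zero) |>.1 e6)

theorem Sk_key2 {X : Type} [MetricSpace X] {f : ℂ → X} {x0 : ℂ} {r : ℝ}
    (h : Lpo f (ball x0 r)) {t : ℂ}
    (h1 : ∀ᵐ y ∂(volume.restrict (ball x0 r)), sp f t y = 0) {x : ℂ} {s : ℝ}
    (hx : ‖x - x0‖ + 2 * (|s| * ‖t‖) < r) : f (x + (s : ℂ) * t) = f x := by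
  have hst : 0 ≤ |s| * ‖t‖ := mul_nonneg (abs_nonneg s) (norm_nonneg t)
  rcases lt_trichotomy s 0 with hs | hs | hs
  · have h2 : ‖(x + (s : ℂ) * t) - x0‖ + (-s) * ‖t‖ < r := by
      have h3 : ‖(x + (s : ℂ) * t) - x0‖ ≤ ‖x - x0‖ + ‖(s : ℂ) * t‖ := by
        rw [add_sub_right_comm]
        exact norm_add_le _ _
      rw [norm_mul, Complex.norm_real, Real.norm_eq_abs] at h3
      rw [abs_of_neg hs] at h3 hx
      linarith
    have h4 := Sk_key h h1 (neg_pos.2 hs) h2
    rw [← h4]
    congr 1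
    push_cast
    ring
  · rw [hs]
    simp
  · apply Sk_key h h1 hs
    rw [abs_of_pos hs] at hx hst
    linarith

theorem const_of_sp {X : Type} [MetricSpace X] {f : ℂ → X} {x0 : ℂ} {r : ℝ}
    (h : Lpo f (ball x0 r)) {t1 t2 : ℂ} (ht : LinearIndependent ℝ ![t1, t2])
    (h1 : ∀ᵐ y ∂(volume.restrict (ball x0 r)), sp f t1 y = 0)
    (h2 : ∀ᵐ y ∂(volume.restrict (ball x0 r)), sp f t2 y = 0) :
    ∀ y ∈ ball x0 r, f y = f x0 := by
  obtain ⟨b, hb⟩ : ∃ b : Module.Basis (Fin 2) ℝ ℂ, ⇑b = ![t1, t2] :=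
    ⟨basisOfLinearIndependentOfCardEqFinrank ht (by rw [Fintype.card_fin, Complex.finrank_real_complex]),
      coe_basisOfLinearIndependentOfCardEqFinrank ht _⟩
  obtain ⟨C, hC0, hC⟩ : ∃ C : ℝ, 0 < C ∧ ∀ h : ℂ, ∀ i, |b.repr h i| ≤ C * ‖h‖ := by
    refine ⟨‖(b.coord 0).toContinuousLinearMap‖ + ‖(b.coord 1).toContinuousLinearMap‖ + 1,
      by positivity, fun h i => ?_⟩
    have e0 := (b.coord 0).toContinuousLinearMap.le_opNorm h
    have e1 := (b.coord 1).toContinuousLinearMap.le_opNorm h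
    have n0 := norm_nonneg (b.coord 0).toContinuousLinearMap
    have n1 := norm_nonneg (b.coord 1).toContinuousLinearMap
    have nh := norm_nonneg h
    rw [Real.norm_eq_abs] at e0 e1
    have m0 := mul_nonneg n0 nh
    have m1 := mul_nonneg n1 nh
    fin_cases i
    · refine le_trans (b := ‖(b.coord 0).toContinuousLinearMap‖ * ‖h‖) e0 ?_
      nlinarith
    · refine le_trans (b := ‖(b.coord 1).toContinuousLinearMap‖ * ‖h‖) e1 ?_
      nlinarith
  have hdec : ∀ h : ℂ, h = ((b.repr h 0 : ℝ) : ℂ) * t1 + ((b.repr h 1 : ℝ) : ℂ) * t2 := by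
    intro h
    conv_lhs => rw [← b.sum_repr h]
    rw [Fin.sum_univ_two, hb, Complex.real_smul, Complex.real_smul]
    rfl
  intro y hy
  rw [mem_ball, dist_eq_norm] at hy
  have hT : 0 ≤ ‖t1‖ + ‖t2‖ := add_nonneg (norm_nonneg _) (norm_nonneg _)
  have step : ∀ x h' : ℂ, ‖x - x0‖ ≤ ‖y - x0‖ → 3 * (C * ‖h'‖ * (‖t1‖ + ‖t2‖)) < r - ‖y - x0‖ →
      f (x + h') = f x := by
    intro x h' hx hh
    have c0 := hC h' 0
    have c1 := hC h' 1
    have k1 : |b.repr h' 0| * ‖t1‖ ≤ C * ‖h'‖ * (‖t1‖ + ‖t2‖) := by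
      have := mul_le_mul_of_nonneg_right c0 (norm_nonneg t1)
      have hCh : 0 ≤ C * ‖h'‖ := by positivity
      nlinarith [norm_nonneg t2, mul_nonneg hCh (norm_nonneg t2)]
    have k2 : |b.repr h' 1| * ‖t2‖ ≤ C * ‖h'‖ * (‖t1‖ + ‖t2‖) := by
      have := mul_le_mul_of_nonneg_right c1 (norm_nonneg t2)
      have hCh : 0 ≤ C * ‖h'‖ := by positivity
      nlinarith [norm_nonneg t1, mul_nonneg hCh (norm_nonneg t1)]
    have e1 : f (x + ((b.repr h' 0 : ℝ) : ℂ) * t1) = f x := by
      apply Sk_key2 h h1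
      have k0 : 0 ≤ C * ‖h'‖ * (‖t1‖ + ‖t2‖) := by positivity
      linarith
    have e2 : f ((x + ((b.repr h' 0 : ℝ) : ℂ) * t1) + ((b.repr h' 1 : ℝ) : ℂ) * t2) =
        f (x + ((b.repr h' 0 : ℝ) : ℂ) * t1) := by
      apply Sk_key2 h h2
      have k3 : ‖(x + ((b.repr h' 0 : ℝ) : ℂ) * t1) - x0‖ ≤ ‖x - x0‖ + |b.repr h' 0| * ‖t1‖ := by
        rw [add_sub_right_comm]
        refine (norm_add_le _ _).trans (le_of_eq ?_)
        rw [norm_mul, Complex.norm_real, Real.norm_eq_abs]
      linarith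
    rw [← e1, ← e2]
    congr 1
    conv_lhs => rw [hdec h']
    ring
  obtain ⟨N, hN⟩ := exists_nat_gt (3 * (C * ‖y - x0‖ * (‖t1‖ + ‖t2‖)) / (r - ‖y - x0‖))
  have hd : 0 < r - ‖y - x0‖ := by linarith
  have hN0 : (0 : ℝ) < N := lt_of_le_of_lt (by positivity) hN
  rw [div_lt_iff₀ hd] at hN
  have hstep : 3 * (C * ‖((1 / (N : ℝ) : ℝ) : ℂ) * (y - x0)‖ * (‖t1‖ + ‖t2‖)) < r - ‖y - x0‖ := by
    rw [norm_mul, Complex.norm_real, Real.norm_of_nonneg (by positivity)]
    have e1 : 3 * (C * (1 / (N : ℝ) * ‖y - x0‖) * (‖t1‖ + ‖t2‖)) =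
        (3 * (C * ‖y - x0‖ * (‖t1‖ + ‖t2‖))) / N := by
      field_simp
    rw [e1, div_lt_iff₀ hN0]
    linarith
  have hind : ∀ k : ℕ, k ≤ N → f (x0 + (((k : ℝ) / N : ℝ) : ℂ) * (y - x0)) = f x0 := by
    intro k
    induction k with
    | zero =>
      intro _
      simp
    | succ k ih =>
      intro hk
      rw [← ih (by omega)]
      have e1 : x0 + (((((k + 1 : ℕ) : ℝ)) / N : ℝ) : ℂ) * (y - x0) =
          (x0 + (((k : ℝ) / N : ℝ) : ℂ) * (y - x0)) + ((1 / (N : ℝ) : ℝ) : ℂ) * (y - x0) := by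
        push_cast
        ring
      rw [e1]
      apply step _ _ _ hstep
      rw [add_sub_cancel_left, norm_mul, Complex.norm_real, Real.norm_of_nonneg (by positivity)]
      have h3 : (k : ℝ) / N ≤ 1 := by
        rw [div_le_one hN0]
        exact_mod_cast (by omega : k ≤ N)
      exact mul_le_of_le_one_left (norm_nonneg _) h3
  have := hind N le_rfl
  rw [div_self hN0.ne'] at this
  rw [← this]
  congr 1
  push_cast
  ring

end H36NA
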