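import Pool.Agent.H36.NA.Df
import Pool.Agent.H36.NA.Sk

/-!
# Row B9Ld (MP_b319aa_NA, B9): vanishing energy of the degree zero parts (about 170 lines)

PROOF. Fix b. w b y := ⟨trl (rs (E b) (u y).1) (- T b y), _⟩ : Nm F (E b) (trl_sn, rs_sn). B := ball x0 r. For y, z in B:
  dist (w b y) (w b z)^2 = ds(rs u y)(rs u z)^2 + 2 (T b y - T b z) rd (rs u y)(rs u z) + finrank (E b) (T b y - T b z)^2 = ds(rs u y)(rs u z)^2 - nn E b (T b z - T b y)^2  (ds_trl, hT2).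
  ∑_b ds (rs (E b) u y)(rs (E b) u z)^2 = ds (u y)(u z)^2 (ds_osm, spd_iff: osm E (u y) = u y on B). So
  (*) ∑_b dist (w b y)(w b z)^2 = dist (u y)(u z)^2 - ∑_b nn E b (T b z - T b y)^2  for y, z in B.
Lpo (w b) B: for compact C in B take L of u on C: dist (w b y)(w b z)^2 <= dist (u y)(u z)^2 <= (|L| dist y z)^2.
Let t be t1 or t2, and y in B with sp u t y ^2 = ∑ nn ip (gr (T b) y) t ^2 and the limit property sp_lim (a.e.; sp_lim for the open set B and u). Then dist(u (y + s t))(u y)^2/s^2 -> sp u t y^2, (T b (y + s t) - T b y)/s -> ip (gr (T b) y) t (T b differentiable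
at y: harmonic is C^2; ip_gr), so by (*) ∑_b (dist (w b (y + s t))(w b y)/|s|)^2 -> 0, each term tends to 0, so dist (w b (y + s t)) (w b y)/|s| -> 0 as s -> 0, s <> 0. In particular along s = 1/(n+1): sp (w b) t y = limsup of (n+1) dist(w b (y + (1/(n+1)) t))(w b y) = 0
(Tendsto.limsup_eq; note (1/(n+1)) • t = ((1/(n+1) : ℝ) : ℂ) * t, |1/(n+1)|).
const_of_sp: w b y = w b x0 on B, i.e. (Subtype.ext_iff) trl (rs u y)(-T b y) = trl (rs u x0)(-T b x0). For x <> 0: (u y) x - T b y = (u x0) x - T b x0, so rs u y = trl (rs u x0)(T b y - T b x0) (funext; at x = 0 both sides are 0: SN.1 of rs).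
-/

set_option autoImplicit false

namespace H36NA

open H50NA H1NA MeasureTheory Set Filter Topology Metric InnerProductSpace

variable {K : Type} [Field K] (F : VF K) {V : Type} [AddCommGroup V] [Module K V] [Module.Finite K V]

/-- the degree zero parts -/
noncomputable def Ld_w {N : ℕ} (u : ℂ → Nm F V) (E : Fin N → Submodule K V) (T : Fin N → ℂ → ℝ)
    (b : Fin N) (y : ℂ) : Nm F (E b) :=
  ⟨trl (rs (E b) (u y).1) (-T b y), H50NA.trl_sn F (H50NA.rs_sn F (E b) (u y).2) _⟩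

theorem Ld_dist {u : ℂ → Nm F V} {N : ℕ} {E : Fin N → Submodule K V} {T : Fin N → ℂ → ℝ}
    {b : Fin N} {y z : ℂ}
    (h : rd F (rs (E b) (u y).1) (rs (E b) (u z).1) = nn E b * (T b z - T b y)) :
    dist (Ld_w F u E T b y) (Ld_w F u E T b z) ^ 2 =
      ds F (rs (E b) (u y).1) (rs (E b) (u z).1) ^ 2 - nn E b * (T b z - T b y) ^ 2 := by
  have h1 := H50NA.ds_trl F (H50NA.rs_sn F (E b) (u y).2) (H50NA.rs_sn F (E b) (u z).2)
    (-T b y) (-T b z)
  rw [h] at h1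
  have h2 : (Module.finrank K (E b) : ℝ) = nn E b := rfl
  rw [h2] at h1
  have h3 : dist (Ld_w F u E T b y) (Ld_w F u E T b z) =
      ds F (trl (rs (E b) (u y).1) (-T b y)) (trl (rs (E b) (u z).1) (-T b z)) := rfl
  rw [h3, h1]
  ring

theorem Ld_sum {u : ℂ → Nm F V} {N : ℕ} {E : Fin N → Submodule K V}
    (hE : DirectSum.IsInternal E) {T : Fin N → ℂ → ℝ} {y z : ℂ} (hy : SpD E (u y).1)
    (hz : SpD E (u z).1)
    (h : ∀ b, rd F (rs (E b) (u y).1) (rs (E b) (u z).1) = nn E b * (T b z - T b y)) :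
    ∑ b, dist (Ld_w F u E T b y) (Ld_w F u E T b z) ^ 2 =
      dist (u y) (u z) ^ 2 - ∑ b, nn E b * (T b z - T b y) ^ 2 := by
  rw [Finset.sum_congr rfl (fun b _ => Ld_dist F (h b)), Finset.sum_sub_distrib,
    ← H50NA.ds_osm F hE (u y).2 (u z).2, (H50NA.spd_iff F hE (u y).2).1 hy,
    (H50NA.spd_iff F hE (u z).2).1 hz]
  rfl

theorem Ld_le {u : ℂ → Nm F V} {N : ℕ} {E : Fin N → Submodule K V}
    (hE : DirectSum.IsInternal E) {T : Fin N → ℂ → ℝ} {y z : ℂ} (hy : SpD E (u y).1)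
    (hz : SpD E (u z).1)
    (h : ∀ b, rd F (rs (E b) (u y).1) (rs (E b) (u z).1) = nn E b * (T b z - T b y)) (b : Fin N) :
    dist (Ld_w F u E T b y) (Ld_w F u E T b z) ^ 2 ≤
      dist (u y) (u z) ^ 2 - ∑ b, nn E b * (T b z - T b y) ^ 2 := by
  rw [← Ld_sum F hE hy hz h]
  exact Finset.single_le_sum (f := fun b => dist (Ld_w F u E T b y) (Ld_w F u E T b z) ^ 2)
    (fun i _ => sq_nonneg _) (Finset.mem_univ b)

theorem Ld_sp {u : ℂ → Nm F V} {x0 : ℂ} {r : ℝ} {N : ℕ}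
    {E : Fin N → Submodule K V} (hE : DirectSum.IsInternal E)
    (hs : ∀ y ∈ ball x0 r, SpD E (u y).1) {T : Fin N → ℂ → ℝ}
    (hT1 : ∀ b, HarmonicOnNhd (T b) (ball x0 r))
    (hT2 : ∀ b, ∀ y ∈ ball x0 r, ∀ z ∈ ball x0 r,
      rd F (rs (E b) (u y).1) (rs (E b) (u z).1) = nn E b * (T b z - T b y))
    {t y : ℂ} (hy : y ∈ ball x0 r)
    (h1 : sp u t y ^ 2 = ∑ b, nn E b * ip (gr (T b) y) t ^ 2)
    (h2 : Tendsto (fun s : ℝ => dist (u (y + (s : ℂ) * t)) (u y) / |s|) (𝓝[≠] 0)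
      (𝓝 (sp u t y))) (b : Fin N) :
    sp (Ld_w F u E T b) t y = 0 := by
  have hsn : Tendsto (fun n : ℕ => 1 / ((n : ℝ) + 1)) atTop (𝓝 0) :=
    tendsto_one_div_add_atTop_nhds_zero_nat
  have hsn' : Tendsto (fun n : ℕ => 1 / ((n : ℝ) + 1)) atTop (𝓝[≠] 0) := by
    rw [tendsto_nhdsWithin_iff]
    refine ⟨hsn, Filter.Eventually.of_forall fun n => ?_⟩
    have : (0 : ℝ) < 1 / ((n : ℝ) + 1) := by positivity
    exact this.ne'
  have hU : Tendsto (fun n : ℕ => ((n : ℝ) + 1) * dist (u (y + (1 / ((n : ℝ) + 1)) • t)) (u y))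
      atTop (𝓝 (sp u t y)) := by
    refine (h2.comp hsn').congr fun n => ?_
    have hp : (0 : ℝ) < 1 / ((n : ℝ) + 1) := by positivity
    simp only [Function.comp_apply]
    rw [abs_of_pos hp, ← Complex.real_smul, div_eq_mul_inv, one_div, inv_inv, mul_comm]
  have hT : ∀ b', Tendsto (fun n : ℕ => ((n : ℝ) + 1) *
      (T b' (y + (1 / ((n : ℝ) + 1)) • t) - T b' y)) atTop (𝓝 (ip (gr (T b') y) t)) := by
    intro b'
    have hd : DifferentiableAt ℝ (T b') y :=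
      ((hT1 b' y hy).1.differentiableAt (by norm_num))
    have hc : Tendsto (fun n : ℕ => ‖((n : ℝ) + 1)‖) atTop atTop := by
      have h3 : Tendsto (fun n : ℕ => ((n : ℝ) + 1)) atTop atTop :=
        tendsto_atTop_add_const_right _ _ tendsto_natCast_atTop_atTop
      refine h3.congr fun n => ?_
      rw [Real.norm_of_nonneg (by positivity)]
    have h4 := hd.hasFDerivAt.lim_real t
    rw [ip_gr]
    have h5 := h4.comp (tendsto_atTop_add_const_right atTop (1 : ℝ)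
      (tendsto_natCast_atTop_atTop (R := ℝ)))
    refine h5.congr fun n => ?_
    simp only [Function.comp_apply]
    rw [smul_eq_mul, one_div]
  have hlim : Tendsto (fun n : ℕ =>
      (((n : ℝ) + 1) * dist (u (y + (1 / ((n : ℝ) + 1)) • t)) (u y)) ^ 2 -
        ∑ b', nn E b' * (((n : ℝ) + 1) * (T b' (y + (1 / ((n : ℝ) + 1)) • t) - T b' y)) ^ 2)
      atTop (𝓝 0) := by
    have h6 := (hU.pow 2).sub (tendsto_finsetSum Finset.univ
      (fun b' _ => ((hT b').pow 2).const_mul (nn E b')))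
    rw [← h1, sub_self] at h6
    exact h6
  have hmem : ∀ᶠ n : ℕ in atTop, y + (1 / ((n : ℝ) + 1)) • t ∈ ball x0 r := by
    have h7 : Tendsto (fun n : ℕ => y + (1 / ((n : ℝ) + 1)) • t) atTop (𝓝 y) := by
      have h8 := (hsn.smul_const t).const_add y
      rwa [zero_smul, add_zero] at h8
    exact h7.eventually (isOpen_ball.mem_nhds hy)
  have hsq : Tendsto (fun n : ℕ => (((n : ℝ) + 1) *
      dist (Ld_w F u E T b (y + (1 / ((n : ℝ) + 1)) • t)) (Ld_w F u E T b y)) ^ 2) atTop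
      (𝓝 0) := by
    refine squeeze_zero' (Filter.Eventually.of_forall fun n => sq_nonneg _) ?_ hlim
    filter_upwards [hmem] with n hn
    have h9 := Ld_le F hE (hs y hy) (hs _ hn) (fun b' => hT2 b' y hy _ hn) b
    rw [dist_comm (Ld_w F u E T b y), dist_comm (u y)] at h9
    have h10 := mul_le_mul_of_nonneg_left h9 (sq_nonneg ((n : ℝ) + 1))
    rw [mul_pow]
    refine h10.trans (le_of_eq ?_)
    rw [mul_sub, mul_pow, Finset.mul_sum]
    congr 1
    refine Finset.sum_congr rfl fun b' _ => ?_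
    ring
  have hg : Tendsto (fun n : ℕ => ((n : ℝ) + 1) *
      dist (Ld_w F u E T b (y + (1 / ((n : ℝ) + 1)) • t)) (Ld_w F u E T b y)) atTop (𝓝 0) := by
    have h11 := hsq.sqrt
    rw [Real.sqrt_zero] at h11
    refine h11.congr fun n => ?_
    rw [Real.sqrt_sq (by positivity)]
  exact hg.limsup_eq

theorem deg_const {u : ℂ → Nm F V} {x0 : ℂ} {r : ℝ} (hu : Lpo u (ball x0 r)) {N : ℕ}
    {E : Fin N → Submodule K V} (hE : DirectSum.IsInternal E)
    (hs : ∀ y ∈ ball x0 r, SpD E (u y).1) {T : Fin N → ℂ → ℝ}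
    (hT1 : ∀ b, HarmonicOnNhd (T b) (ball x0 r))
    (hT2 : ∀ b, ∀ y ∈ ball x0 r, ∀ z ∈ ball x0 r,
      rd F (rs (E b) (u y).1) (rs (E b) (u z).1) = nn E b * (T b z - T b y))
    {t1 t2 : ℂ} (ht : LinearIndependent ℝ ![t1, t2])
    (h1 : ∀ᵐ y ∂(volume.restrict (ball x0 r)), sp u t1 y ^ 2 = ∑ b, nn E b * ip (gr (T b) y) t1 ^ 2)
    (h2 : ∀ᵐ y ∂(volume.restrict (ball x0 r)), sp u t2 y ^ 2 = ∑ b, nn E b * ip (gr (T b) y) t2 ^ 2) :
    ∀ b, ∀ y ∈ ball x0 r, rs (E b) (u y).1 = trl (rs (E b) (u x0).1) (T b y - T b x0) := by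
  intro b y hy
  have hnn : ∀ b', 0 ≤ nn E b' := fun b' => Nat.cast_nonneg _
  have hL : Lpo (Ld_w F u E T b) (ball x0 r) := by
    intro C hC hCc
    obtain ⟨L, hL⟩ := hu C hC hCc
    refine ⟨L, fun x hx z hz => ?_⟩
    refine le_trans ?_ (hL x hx z hz)
    have h3 := Ld_le F hE (hs x (hC hx)) (hs z (hC hz))
      (fun b' => hT2 b' x (hC hx) z (hC hz)) b
    have h4 : 0 ≤ ∑ b', nn E b' * (T b' z - T b' x) ^ 2 :=
      Finset.sum_nonneg fun b' _ => mul_nonneg (hnn b') (sq_nonneg _)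
    have h5 : dist (Ld_w F u E T b x) (Ld_w F u E T b z) ^ 2 ≤ dist (u x) (u z) ^ 2 := by
      linarith
    exact (sq_le_sq₀ dist_nonneg dist_nonneg).1 h5
  have hsp : ∀ t : ℂ, (∀ᵐ y ∂(volume.restrict (ball x0 r)),
      sp u t y ^ 2 = ∑ b, nn E b * ip (gr (T b) y) t ^ 2) →
      ∀ᵐ y ∂(volume.restrict (ball x0 r)), sp (Ld_w F u E T b) t y = 0 := by
    intro t h
    filter_upwards [h, sp_lim isOpen_ball hu t, ae_restrict_mem measurableSet_ball] with z hz1 hz2 hz3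
    exact Ld_sp F hE hs hT1 hT2 hz3 hz1 hz2 b
  have hc := const_of_sp hL ht (hsp t1 h1) (hsp t2 h2) y hy
  funext x
  by_cases hx : x = 0
  · subst hx
    have e1 : rs (E b) (u y).1 0 = 0 := (H50NA.rs_sn F (E b) (u y).2).1
    have e2 : trl (rs (E b) (u x0).1) (T b y - T b x0) 0 = 0 := by
      unfold trl
      rw [if_pos rfl]
    rw [e1, e2]
  · have e3 := congrFun (congrArg Subtype.val hc) x
    have e4 : trl (rs (E b) (u y).1) (-T b y) x = trl (rs (E b) (u x0).1) (-T b x0) x := e3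
    unfold trl at e4 ⊢
    rw [if_neg hx, if_neg hx] at e4
    rw [if_neg hx]
    linarith

end H36NA
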