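import Pool.Agent.H36.NA.La
import Pool.Agent.H36.NA.Lb
import Pool.Agent.H36.NA.Lc
import Pool.Agent.H36.NA.Ld

/-!
# Row B9Le (MP_b319aa_NA, B9): chart at a point where the number of different gradients is maximal (about 90 lines)

PROOF. r0, T from str2. t1, t2 from two_dir hB.inj. r1, r2 from dens_max for t1, t2. r3: by continuity of gr (T b) at x0 (harmonic: ContDiffAt ℝ 2) and gr (T b) x0 = a b pairwise different, gr (T b) y are pairwise different for y in ball x0 r3 (finitely many pairs).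
r := min of r0, r1, r2, r3 and rmax. Everything restricts to ball x0 r (HarmonicOnNhd.mono). sp_ae with Q y = ∑ nn E b * ip (gr (T b) y) t ^2 for t = t1, t2 (hypothesis hQ: dens_max with N' <= N from hmax). deg_const: the equations of Cht.
Cht: rpos; int = hB.int; ne = hB.nz; c1: ContDiffOn ℝ 1 (T b): harmonic at every point is ContDiffAt ℝ 2, so ContDiffAt ℝ 1, ContDiffWithinAt; dst: fderiv ℝ (T b) y = fderiv ℝ (T b') y would give gr (T b) y = gr (T b') y; spl; eq.
-/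

set_option autoImplicit false

namespace H36NA

open H50NA H1NA MeasureTheory Set Filter Topology Metric InnerProductSpace

variable {K : Type} [Field K] (F : VF K) {V : Type} [AddCommGroup V] [Module K V] [Module.Finite K V]

theorem chart_max (hR : Rf F) {u : ℂ → Nm F V} {O : Set ℂ} (hu : LM u O) {x0 : ℂ} (hx : x0 ∈ O)
    {N : ℕ} {E : Fin N → Submodule K V} {a : Fin N → ℂ} (hB : Blow F u x0 N E a) {rmax : ℝ}
    (hrmax : 0 < rmax) (hmax : ∀ y ∈ ball x0 rmax, ∀ (N' : ℕ) (E' : Fin N' → Submodule K V)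
      (a' : Fin N' → ℂ), Blow F u y N' E' a' → N' ≤ N) :
    ∃ (r : ℝ) (T : Fin N → ℂ → ℝ), Cht F u x0 r N E T ∧ ball x0 r ⊆ O ∧
      ∀ b, HarmonicOnNhd (T b) (ball x0 r) := by
  obtain ⟨r0, hr0, hr0O, hs, T, hT1, hT2, hT3⟩ := str2 F hu hx hB
  obtain ⟨t1, t2, hind, hi1, hi2⟩ := two_dir hB.inj
  obtain ⟨r1, hr1, hr10, hr1O, h1⟩ := dens_max F hu hx hB hr0 hs hT1 hT2 hT3 hi1
  obtain ⟨r2, hr2, hr20, hr2O, h2⟩ := dens_max F hu hx hB hr0 hs hT1 hT2 hT3 hi2
  have hx0 : x0 ∈ ball x0 r0 := mem_ball_self hr0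
  have hcd : ∀ b, ContinuousAt (fderiv ℝ (T b)) x0 := fun b =>
    ((hT1 b x0 hx0).1.fderiv_right (m := 1) (by norm_num)).continuousAt
  have hne0 : ∀ b b', b ≠ b' → fderiv ℝ (T b) x0 ≠ fderiv ℝ (T b') x0 := by
    intro b b' hbb h
    apply hbb
    apply hB.inj
    rw [← hT3 b, ← hT3 b']
    unfold gr
    rw [h]
  have hev : ∀ᶠ y in 𝓝 x0, ∀ b b', b ≠ b' → fderiv ℝ (T b) y ≠ fderiv ℝ (T b') y := by
    rw [eventually_all]
    intro b
    rw [eventually_all]
    intro b'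
    by_cases hbb : b = b'
    · exact Eventually.of_forall fun y h => absurd hbb h
    · have h3 : Tendsto (fun y => fderiv ℝ (T b) y - fderiv ℝ (T b') y) (𝓝 x0)
          (𝓝 (fderiv ℝ (T b) x0 - fderiv ℝ (T b') x0)) := (hcd b).sub (hcd b')
      filter_upwards [h3.eventually_ne (sub_ne_zero.2 (hne0 b b' hbb))] with y hy _
      exact sub_ne_zero.1 hy
  obtain ⟨r3, hr3, hball⟩ := Metric.eventually_nhds_iff_ball.1 hev
  have hrr1 : min (min r1 r2) (min r3 rmax) ≤ r1 := (min_le_left _ _).trans (min_le_left _ _)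
  have hrr2 : min (min r1 r2) (min r3 rmax) ≤ r2 := (min_le_left _ _).trans (min_le_right _ _)
  have hrr3 : min (min r1 r2) (min r3 rmax) ≤ r3 := (min_le_right _ _).trans (min_le_left _ _)
  have hrrm : min (min r1 r2) (min r3 rmax) ≤ rmax := (min_le_right _ _).trans (min_le_right _ _)
  have hrpos : 0 < min (min r1 r2) (min r3 rmax) := lt_min (lt_min hr1 hr2) (lt_min hr3 hrmax)
  generalize min (min r1 r2) (min r3 rmax) = r at hrr1 hrr2 hrr3 hrrm hrpos
  have hb0 : ball x0 r ⊆ ball x0 r0 := ball_subset_ball (hrr1.trans hr10)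
  have hb1 : ball x0 r ⊆ ball x0 r1 := ball_subset_ball hrr1
  have hb2 : ball x0 r ⊆ ball x0 r2 := ball_subset_ball hrr2
  have hb3 : ball x0 r ⊆ ball x0 r3 := ball_subset_ball hrr3
  have hbm : ball x0 r ⊆ ball x0 rmax := ball_subset_ball hrrm
  have hbO : ball x0 r ⊆ O := hb1.trans hr1O
  have hharm : ∀ b, HarmonicOnNhd (T b) (ball x0 r) := fun b => (hT1 b).mono hb0
  refine ⟨r, T, ?_, hbO, hharm⟩
  refine ⟨hrpos, hB.int, hB.nz, ?_, ?_, ?_, ?_⟩
  · intro b
    exact (hharm b).contDiffOn.of_le (by norm_num)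
  · intro y hy b b' hbb
    exact hball y (hb3 hy) b b' hbb
  · exact fun y hy => hs y (hb0 hy)
  · refine deg_const F (fun C hC hc => hu.lip C (hC.trans hbO) hc) hB.int (fun y hy => hs y (hb0 hy))
      hharm (fun b y hy z hz => hT2 b y (hb0 hy) z (hb0 hz)) hind ?_ ?_
    · exact sp_ae F hR hu hbO t1 (Q := fun y => ∑ b, nn E b * ip (gr (T b) y) t1 ^ 2)
        (fun y hy N' E' a' hB' => h1 y (hb1 hy) N' E' a' hB' (hmax y (hbm hy) N' E' a' hB'))
    · exact sp_ae F hR hu hbO t2 (Q := fun y => ∑ b, nn E b * ip (gr (T b) y) t2 ^ 2)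
        (fun y hy N' E' a' hB' => h2 y (hb2 hy) N' E' a' hB' (hmax y (hbm hy) N' E' a' hB'))

end H36NA
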