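import Pool.Agent.H36.NA.Df

/-!
# Row B9Na (MP_b319aa_NA, B9): a chart gives blow-up data at each of its points (about 90 lines)

PROOF. q := (u y).1, a b := gr (T b) y. int, nz, spl from h; inj: a b = a b' gives ip (a b) t = ip (a b') t for all t, so fderiv ℝ (T b) y = fderiv ℝ (T b') y (ip_gr), so b = b' (h.dst).
app: ep, rho > 0. T b is differentiable at y for each of the finitely many b (h.c1 on the open ball), so there is del > 0, del < rho, ball y del in ball x0 r (take l < del), with |T b z - T b y - fderiv ℝ (T b) y (z - y)| <= ep ‖z - y‖ for ‖z - y‖ < del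
(HasFDerivAt.isLittleO). l := del/2. For dist z y <= l, x <> 0: for every b with x_b := cpt E b x <> 0: (u z).1 x_b = (u x0).1 x_b + T b z - T b x0 (h.eq at z, evaluated at x_b in E b: H31NA.cpt_mem) and (u y).1 x_b = (u x0).1 x_b + T b y - T b x0, so
(u z).1 x_b = q x_b + (T b z - T b y). u z is split along E: (u z).1 x is the minimum over {b : x_b <> 0} of q x_b + T b z - T b y, and afm E q (..) x is the minimum over the same finite non empty set of q x_b + ip (a b)(z - y) (unfold afm: sInf of a finite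
non empty set; H31NA.cpt_ex). The two families differ by <= ep ‖z - y‖ <= ep l, so the minima differ by at most ep l (ip (a b) (z - y) = fderiv ℝ (T b) y (z - y)).
-/

set_option autoImplicit false

namespace H36NA

open H50NA H1NA MeasureTheory Set Filter Topology Metric

variable {K : Type} [Field K] (F : VF K) {V : Type} [AddCommGroup V] [Module K V] [Module.Finite K V]

omit [Module.Finite K V] in
private theorem Na_afm {N : ℕ} {E : Fin N → Submodule K V} (hE : DirectSum.IsInternal E) (q : V → ℝ)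
    (c : Fin N → ℝ) {x : V} (hx : x ≠ 0) :
    (∀ b, cpt E b x ≠ 0 → afm E q c x ≤ q (cpt E b x) + c b) ∧
      ∃ b, cpt E b x ≠ 0 ∧ afm E q c x = q (cpt E b x) + c b := by
  have hne : {b | cpt E b x ≠ 0}.Nonempty := H31NA.cpt_ex hE hx
  have hfin : {b | cpt E b x ≠ 0}.Finite := Set.toFinite _
  have himf := hfin.image (fun b => q (cpt E b x) + c b)
  have himn := hne.image (fun b => q (cpt E b x) + c b)
  have e : afm E q c x = sInf ((fun b => q (cpt E b x) + c b) '' {b | cpt E b x ≠ 0}) := by
    unfold afm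
    rw [if_neg hx]
  rw [e]
  refine ⟨fun b hb => csInf_le himf.bddBelow ⟨b, hb, rfl⟩, ?_⟩
  obtain ⟨b, hb, hb2⟩ := himn.csInf_mem himf
  exact ⟨b, hb, hb2.symm⟩

theorem cht_blow {u : ℂ → Nm F V} {x0 : ℂ} {r : ℝ} {N : ℕ} {E : Fin N → Submodule K V}
    {T : Fin N → ℂ → ℝ} (h : Cht F u x0 r N E T) {y : ℂ} (hy : y ∈ ball x0 r) :
    Blow F u y N E (fun b => gr (T b) y) := by
  refine ⟨h.int, h.ne, ?_, h.spl y hy, ?_⟩
  · intro b b' hbb
    by_contra hne
    apply h.dst y hy b b' hne
    ext t
    rw [← ip_gr, ← ip_gr]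
    exact congrArg (fun a => ip a t) hbb
  · intro ep hep rho hrho
    have hd : ∀ b, HasFDerivAt (T b) (fderiv ℝ (T b) y) y := by
      intro b
      have h1 : ContDiffAt ℝ 1 (T b) y := (h.c1 b).contDiffAt (isOpen_ball.mem_nhds hy)
      exact (h1.differentiableAt (by norm_num)).hasFDerivAt
    have hev : ∀ᶠ z in 𝓝 y, ∀ b, ‖T b z - T b y - fderiv ℝ (T b) y (z - y)‖ ≤ ep * ‖z - y‖ := by
      rw [eventually_all]
      intro b
      exact (hd b).isLittleO.def hep
    obtain ⟨de, hde, hde2⟩ := Metric.eventually_nhds_iff.1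
      (hev.and (isOpen_ball.mem_nhds hy : ∀ᶠ z in 𝓝 y, z ∈ ball x0 r))
    refine ⟨min (de / 2) (rho / 2), lt_min (by linarith) (by linarith),
      lt_of_le_of_lt (min_le_right _ _) (by linarith), ?_⟩
    intro z hz x hx
    have hzl : dist z y < de := lt_of_le_of_lt (hz.trans (min_le_left _ _)) (by linarith)
    obtain ⟨hb1, hzr⟩ := hde2 hzl
    obtain ⟨l, hl⟩ : ∃ l, l = min (de / 2) (rho / 2) := ⟨_, rfl⟩
    rw [← hl] at hz ⊢
    have hnorm : ‖z - y‖ ≤ l := by rw [← dist_eq_norm]; exact hz
    -- values on the components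
    have hval : ∀ (w : ℂ), w ∈ ball x0 r → ∀ b, cpt E b x ≠ 0 →
        (u w).1 (cpt E b x) = (u x0).1 (cpt E b x) + (T b w - T b x0) := by
      intro w hw b hb
      have h1 := congrFun (h.eq b w hw) ⟨cpt E b x, H31NA.cpt_mem E b x⟩
      unfold rs trl at h1
      rw [if_neg (fun h2 => hb (congrArg Subtype.val h2))] at h1
      exact h1
    have hdiff : ∀ b, cpt E b x ≠ 0 →
        |(u z).1 (cpt E b x) - ((u y).1 (cpt E b x) +
          ((gr (T b) y).re * (z - y).re + (gr (T b) y).im * (z - y).im))| ≤ ep * l := by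
      intro b hb
      have e1 : (gr (T b) y).re * (z - y).re + (gr (T b) y).im * (z - y).im =
          fderiv ℝ (T b) y (z - y) := ip_gr (T b) y (z - y)
      rw [e1, hval z hzr b hb, hval y hy b hb]
      have e2 : (u x0).1 (cpt E b x) + (T b z - T b x0) -
          ((u x0).1 (cpt E b x) + (T b y - T b x0) + fderiv ℝ (T b) y (z - y)) =
          T b z - T b y - fderiv ℝ (T b) y (z - y) := by ring
      rw [e2, ← Real.norm_eq_abs]
      refine (hb1 b).trans ?_
      exact mul_le_mul_of_nonneg_left hnorm hep.le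
    obtain ⟨s1, b1, hb1', s2⟩ := h.spl z hzr x hx
    obtain ⟨a1, b2, hb2', a2⟩ := Na_afm h.int (u y).1
      (fun b => (gr (T b) y).re * (z - y).re + (gr (T b) y).im * (z - y).im) hx
    rw [abs_le]
    constructor
    · have k1 := (abs_le.1 (hdiff b1 hb1')).1
      have k2 := a1 b1 hb1'
      rw [s2]
      linarith
    · have k1 := (abs_le.1 (hdiff b2 hb2')).2
      have k2 := s1 b2 hb2'
      rw [a2]
      linarith

end H36NA
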