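import Mathlib

/-!
# Row B9Sg (MP_b319aa_NA, B9): powers of the conjugate as a combination of powers of real inner products (about 90 lines; Mathlib only)

PROOF. M := 2 j + 1, w := exp(2 pi I / M) (Complex.isPrimitiveRoot_exp M), t i := w ^ i, κ i := (2 ^ j / M) * (w ^ (i * j))⁻¹. For |t| = 1: a.re t.re + a.im t.im = (a * conj t + conj a * t)/2 (as complex number), conj t = t⁻¹.
So (a.re t.re + a.im t.im)^j = 2^{-j} ∑_{k <= j} C(j,k) (a t⁻¹)^k (conj a * t)^{j-k} (add_pow) = 2^{-j} ∑_k C(j,k) a^k (conj a)^{j-k} t^{j-2k} (t^j * (t⁻¹)^(2k)).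
∑_{i < M} (w^i)^{-j} (w^i)^{j-2k} = ∑_i (w^{-2k})^i, which is M if k = 0, and 0 if 0 < k <= j: w^{2k} <> 1 since 0 < 2k < M (IsPrimitiveRoot.pow_ne_one_of_pos_of_lt) and (w^{-2k})^M = 1 (geometric sum: mul_geom_sum or geom_sum_eq).
Hence ∑_i κ i * (...)^j = conj a ^ j.
-/

set_option autoImplicit false

namespace H36NA

theorem B9Sg_real (a t : ℂ) (ht : ‖t‖ = 1) :
    ((a.re * t.re + a.im * t.im : ℝ) : ℂ) = (a * t⁻¹ + starRingEnd ℂ a * t) / 2 := by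
  have h1 : t⁻¹ = starRingEnd ℂ t := by
    rw [Complex.inv_def, Complex.normSq_eq_norm_sq, ht]
    simp
  rw [h1]
  apply Complex.ext
  · simp
  · simp
    ring

theorem B9Sg_geom {M : ℕ} (w : ℂ) (hw : IsPrimitiveRoot w M) (hM : 0 < M) (k : ℕ) (hk : 0 < k)
    (hk' : k < M) : ∑ i : Fin M, ((w ^ (i : ℕ))⁻¹) ^ k = 0 := by
  have h1 : (w⁻¹) ^ k ≠ 1 := by
    rw [inv_pow]
    intro h
    have h2 : w ^ k = 1 := by
      rw [← inv_inv (w ^ k), h, inv_one]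
    exact hw.pow_ne_one_of_pos_of_lt hk.ne' hk' h2
  have h2 : ((w⁻¹) ^ k) ^ M = 1 := by
    rw [← pow_mul, mul_comm, pow_mul, inv_pow, hw.pow_eq_one, inv_one, one_pow]
  have h3 := geom_sum_eq h1 M
  rw [h2, sub_self, zero_div] at h3
  rw [← h3, ← Fin.sum_univ_eq_sum_range (fun i => ((w⁻¹) ^ k) ^ i) M]
  apply Finset.sum_congr rfl
  intro i _
  rw [← pow_mul, ← inv_pow, ← pow_mul, mul_comm]

theorem conj_pow (j : ℕ) : ∃ (M : ℕ) (κ t : Fin M → ℂ), (∀ i, ‖t i‖ = 1) ∧ ∀ a : ℂ,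
    (starRingEnd ℂ a) ^ j =
      ∑ i, κ i * ((a.re * (t i).re + a.im * (t i).im : ℝ) : ℂ) ^ j := by
  obtain ⟨M, hM⟩ : ∃ M : ℕ, M = 2 * j + 1 := ⟨_, rfl⟩
  have hM0 : M ≠ 0 := by omega
  obtain ⟨w, hw⟩ : ∃ w : ℂ, IsPrimitiveRoot w M := ⟨_, Complex.isPrimitiveRoot_exp M hM0⟩
  have hwn : ‖w‖ = 1 := hw.norm'_eq_one hM0
  have hw0 : w ≠ 0 := by
    intro h
    rw [h, norm_zero] at hwn
    exact zero_ne_one hwn
  refine ⟨M, fun i => (2 ^ j / M) * ((w ^ (i : ℕ)) ^ j)⁻¹, fun i => w ^ (i : ℕ), fun i => ?_,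
    fun a => ?_⟩
  · rw [norm_pow, hwn, one_pow]
  have hMc : (M : ℂ) ≠ 0 := Nat.cast_ne_zero.2 hM0
  have h1 : ∀ i : Fin M, (2 ^ j / M : ℂ) * ((w ^ (i : ℕ)) ^ j)⁻¹ *
      ((a.re * (w ^ (i : ℕ)).re + a.im * (w ^ (i : ℕ)).im : ℝ) : ℂ) ^ j =
      ∑ m ∈ Finset.range (j + 1), (1 / M : ℂ) * (a ^ m * (starRingEnd ℂ a) ^ (j - m) *
        (j.choose m : ℂ)) * ((w ^ (i : ℕ))⁻¹) ^ (2 * m) := by
    intro i
    have ht : ‖w ^ (i : ℕ)‖ = 1 := by rw [norm_pow, hwn, one_pow]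
    rw [B9Sg_real a _ ht, div_pow, add_pow, Finset.sum_div, Finset.mul_sum]
    apply Finset.sum_congr rfl
    intro m hm
    have hm' : m ≤ j := Nat.lt_succ_iff.1 (Finset.mem_range.1 hm)
    have hT : (w ^ (i : ℕ)) ≠ 0 := pow_ne_zero _ hw0
    generalize w ^ (i : ℕ) = T at hT ⊢
    obtain ⟨d, rfl⟩ := Nat.exists_eq_add_of_le hm'
    have e1 : m + d - m = d := by omega
    rw [e1]
    rw [mul_pow, mul_pow]
    have e2 : T⁻¹ ^ (2 * m) = T⁻¹ ^ m * T⁻¹ ^ m := by rw [two_mul, pow_add]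
    have e3 : (T ^ (m + d))⁻¹ = T⁻¹ ^ m * T⁻¹ ^ d := by rw [← inv_pow, pow_add]
    have e4 : T⁻¹ ^ d * T ^ d = 1 := by rw [← mul_pow, inv_mul_cancel₀ hT, one_pow]
    rw [e2, e3]
    have e5 : (2 : ℂ) ^ (m + d) ≠ 0 := pow_ne_zero _ two_ne_zero
    field_simp
    linear_combination (a ^ m * (starRingEnd ℂ a) ^ d * ((m + d).choose m : ℂ)) * e4
  rw [Finset.sum_congr rfl (fun i _ => h1 i), Finset.sum_comm]
  rw [Finset.sum_eq_single 0]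
  · simp
    rw [← mul_assoc, mul_inv_cancel₀ hMc, one_mul]
  · intro m hm hm0
    rw [← Finset.mul_sum, B9Sg_geom w hw (Nat.pos_of_ne_zero hM0) (2 * m) (by omega)
      (by have := Finset.mem_range.1 hm; omega), mul_zero]
  · intro h
    exact absurd (Finset.mem_range.2 (Nat.succ_pos j)) h

end H36NA
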