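import Pool.Agent.H36.NA.Sf
import Pool.Agent.H36.NA.Sg

/-!
# Row B9Sh (MP_b319aa_NA, B9): the power sums of the conjugates are continuous and do not depend on the data (about 70 lines)

PROOF. conj_pow j gives M, κ, t. For all data (E, a): pw E a j = ∑_b nn E b conj(a b)^j = ∑_i κ i * ∑_b nn E b (ip (a b) (t i))^j = ∑_i κ i * (pwr E a j (t i) : ℂ) (exchange of sums, casts; ip is a.re * z.re + a.im * z.im by definition).
near: for ep > 0 take from near_pwr for each i a radius r i with ep' = ep/(1 + ∑ ‖κ i‖) and the minimum of the finitely many radii (if M = 0 both sides are 0; any radius with ball in O). ‖pw E' a' j - pw E a j‖ <= ∑ ‖κ i‖ ep' <= ep.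
uniq: apply near at x0 = y for every ep > 0.
-/

set_option autoImplicit false

namespace H36NA

open H50NA H1NA MeasureTheory Set Filter Topology Metric

variable {K : Type} [Field K] (F : VF K) {V : Type} [AddCommGroup V] [Module K V] [Module.Finite K V]

omit [Module.Finite K V] in
theorem Sh_pw (j : ℕ) : ∃ (M : ℕ) (κ t : Fin M → ℂ), ∀ (N : ℕ) (E : Fin N → Submodule K V)
    (a : Fin N → ℂ), pw E a j = ∑ i, κ i * ((pwr E a j (t i) : ℝ) : ℂ) := by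
  obtain ⟨M, κ, t, -, h⟩ := conj_pow j
  refine ⟨M, κ, t, fun N E a => ?_⟩
  unfold pw pwr
  have h1 : ∀ i, κ i * ((∑ b, nn E b * ip (a b) (t i) ^ j : ℝ) : ℂ) =
      ∑ b, ((nn E b : ℝ) : ℂ) * (κ i * ((ip (a b) (t i) : ℝ) : ℂ) ^ j) := by
    intro i
    rw [Complex.ofReal_sum, Finset.mul_sum]
    refine Finset.sum_congr rfl fun b _ => ?_
    rw [Complex.ofReal_mul, Complex.ofReal_pow]
    ring
  rw [Finset.sum_congr rfl (fun i _ => h1 i), Finset.sum_comm]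
  refine Finset.sum_congr rfl fun b _ => ?_
  rw [h (a b), Finset.mul_sum]
  rfl

theorem near_pw {u : ℂ → Nm F V} {O : Set ℂ} (hu : LM u O) {x0 : ℂ} (hx : x0 ∈ O) {N : ℕ}
    {E : Fin N → Submodule K V} {a : Fin N → ℂ} (hB : Blow F u x0 N E a) (j : ℕ) {ep : ℝ}
    (hep : 0 < ep) : ∃ r : ℝ, 0 < r ∧ ball x0 r ⊆ O ∧ ∀ y ∈ ball x0 r, ∀ (N' : ℕ)
      (E' : Fin N' → Submodule K V) (a' : Fin N' → ℂ), Blow F u y N' E' a' →
      ‖pw E' a' j - pw E a j‖ ≤ ep := by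
  obtain ⟨M, κ, t, h⟩ := Sh_pw (K := K) (V := V) j
  have hS : 0 ≤ ∑ i, ‖κ i‖ := Finset.sum_nonneg fun i _ => norm_nonneg _
  have hS1 : 0 < 1 + ∑ i, ‖κ i‖ := by linarith
  have hep' : 0 < ep / (1 + ∑ i, ‖κ i‖) := div_pos hep hS1
  choose ρ hρ0 hρO hρ using fun i => near_pwr F hu hx hB j (t i) hep'
  obtain ⟨r0, hr0, hr0O⟩ := Metric.isOpen_iff.1 hu.opn x0 hx
  have hev : ∀ᶠ r in 𝓝[>] (0 : ℝ), (∀ i, r < ρ i) ∧ r < r0 ∧ 0 < r := by
    refine (eventually_all.2 fun i => ?_).and (Filter.Eventually.and ?_ ?_)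
    · filter_upwards [Ioo_mem_nhdsGT (hρ0 i)] with r hr
      exact hr.2
    · filter_upwards [Ioo_mem_nhdsGT hr0] with r hr
      exact hr.2
    · filter_upwards [Ioo_mem_nhdsGT hr0] with r hr
      exact hr.1
  obtain ⟨r, h1, h2, h3⟩ := hev.exists
  refine ⟨r, h3, (ball_subset_ball h2.le).trans hr0O, fun y hy N' E' a' hB' => ?_⟩
  rw [h, h, ← Finset.sum_sub_distrib]
  calc ‖∑ i, (κ i * ((pwr E' a' j (t i) : ℝ) : ℂ) - κ i * ((pwr E a j (t i) : ℝ) : ℂ))‖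
      ≤ ∑ i, ‖κ i * ((pwr E' a' j (t i) : ℝ) : ℂ) - κ i * ((pwr E a j (t i) : ℝ) : ℂ)‖ :=
        norm_sum_le _ _
    _ ≤ ∑ i, ‖κ i‖ * (ep / (1 + ∑ i, ‖κ i‖)) := by
        refine Finset.sum_le_sum fun i _ => ?_
        rw [← mul_sub, norm_mul, ← Complex.ofReal_sub, Complex.norm_real]
        refine mul_le_mul_of_nonneg_left ?_ (norm_nonneg _)
        rw [Real.norm_eq_abs]
        exact hρ i y (ball_subset_ball (h1 i).le hy) N' E' a' hB'
    _ = (∑ i, ‖κ i‖) * (ep / (1 + ∑ i, ‖κ i‖)) := by rw [Finset.sum_mul]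
    _ ≤ (1 + ∑ i, ‖κ i‖) * (ep / (1 + ∑ i, ‖κ i‖)) :=
        mul_le_mul_of_nonneg_right (by linarith) hep'.le
    _ = ep := by field_simp

theorem pw_uniq {u : ℂ → Nm F V} {O : Set ℂ} (hu : LM u O) {x0 : ℂ} (hx : x0 ∈ O) {N N' : ℕ}
    {E : Fin N → Submodule K V} {a : Fin N → ℂ} (hB : Blow F u x0 N E a)
    {E' : Fin N' → Submodule K V} {a' : Fin N' → ℂ} (hB' : Blow F u x0 N' E' a') (j : ℕ) :
    pw E' a' j = pw E a j := by
  rw [← sub_eq_zero, ← norm_le_zero_iff]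
  apply le_of_forall_pos_le_add
  intro ep hep
  rw [zero_add]
  obtain ⟨r, hr, -, h⟩ := near_pw F hu hx hB j hep
  exact h x0 (mem_ball_self hr) N' E' a' hB'

end H36NA
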