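import Pool.Agent.H36.NA.Na
import Pool.Agent.H36.NA.Sh

/-!
# Row B9Nb (MP_b319aa_NA, B9): the Hankel determinant is holomorphic at chart points (about 70 lines)

PROOF. For z in ball y r: by hP there are data (E', a') at z with P z = det (of fun i j => pw E' a' (i + j)), and pw E' a' j = pw E (fun b => gr (T b) z) j (pw_uniq with cht_blow; z in O by hO). conj (gr (T b) z) = fderiv ℝ (T b) z 1 - I * fderiv ℝ (T b) z I
(Complex.ext), a complex differentiable function of z at y by HarmonicAt.differentiableAt_complex_partial (hT b y _). So P coincides near y (Filter.eventually_of_mem, ball_mem_nhds) with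
z ↦ det (of fun i j => ∑ b, nn E b * (fderiv ℝ (T b) z 1 - I * fderiv ℝ (T b) z I)^(i+j)), a polynomial expression (Matrix.det_apply: sum over permutations of products) in functions differentiable at y: DifferentiableAt.congr_of_eventuallyEq.
-/

set_option autoImplicit false

namespace H36NA

open H50NA H1NA MeasureTheory Set Filter Topology Metric InnerProductSpace

variable {K : Type} [Field K] (F : VF K) {V : Type} [AddCommGroup V] [Module K V] [Module.Finite K V]

theorem hankel_hol {u : ℂ → Nm F V} {O : Set ℂ} (hu : LM u O) {y : ℂ} {r : ℝ} {N : ℕ}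
    {E : Fin N → Submodule K V} {T : Fin N → ℂ → ℝ} (h : Cht F u y r N E T) (hO : ball y r ⊆ O)
    (hT : ∀ b, HarmonicOnNhd (T b) (ball y r)) (n : ℕ) {P : ℂ → ℂ}
    (hP : ∀ z ∈ ball y r, ∃ (N' : ℕ) (E' : Fin N' → Submodule K V) (a' : Fin N' → ℂ),
      Blow F u z N' E' a' ∧
      P z = (Matrix.of fun i j : Fin n => pw E' a' ((i : ℕ) + (j : ℕ))).det) :
    DifferentiableAt ℂ P y := by
  have hyb : y ∈ ball y r := mem_ball_self h.rpos
  obtain ⟨G, hGdef⟩ : ∃ G : Fin N → ℂ → ℂ, G = fun b z =>
    (fderiv ℝ (T b) z 1 : ℂ) - Complex.I * (fderiv ℝ (T b) z Complex.I : ℂ) := ⟨_, rfl⟩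
  have hG : ∀ b, DifferentiableAt ℂ (G b) y := fun b => by
    rw [hGdef]
    exact HarmonicAt.differentiableAt_complex_partial (hT b y hyb)
  have hconj : ∀ b z, (starRingEnd ℂ) (gr (T b) z) = G b z := fun b z => by
    rw [hGdef]
    apply Complex.ext <;> simp [gr]
  have hPeq : ∀ z ∈ ball y r, P z = (Matrix.of fun i j : Fin n =>
      ∑ b, ((nn E b : ℝ) : ℂ) * (G b z) ^ ((i : ℕ) + (j : ℕ))).det := by
    intro z hz
    obtain ⟨N', E', a', hB', hPz⟩ := hP z hz
    rw [hPz]
    congr 1
    ext i j
    rw [Matrix.of_apply, Matrix.of_apply, pw_uniq F hu (hO hz) (cht_blow F h hz) hB']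
    unfold pw
    simp only [hconj]
  have hd : DifferentiableAt ℂ (fun z => (Matrix.of fun i j : Fin n =>
      ∑ b, ((nn E b : ℝ) : ℂ) * (G b z) ^ ((i : ℕ) + (j : ℕ))).det) y := by
    simp only [Matrix.det_apply', Matrix.of_apply]
    refine DifferentiableAt.fun_sum fun σ _ => DifferentiableAt.const_mul ?_ _
    refine DifferentiableAt.fun_finsetProd fun i _ => ?_
    refine DifferentiableAt.fun_sum fun b _ => DifferentiableAt.const_mul ?_ _
    exact (hG b).fun_pow _
  exact hd.congr_of_eventuallyEq (Filter.eventually_of_mem (ball_mem_nhds y h.rpos) hPeq)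

end H36NA
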