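import Mathlib

/-!
# Row B9Si (MP_b319aa_NA, B9): Hankel determinants of power sums (about 90 lines; Mathlib only)

PROOF. Let A : Matrix (Fin N) (Fin M) ℂ, A b i = z b ^ i. The matrix (∑_b n b z b ^ (i + j))_{i j} is Aᵀ * (diagonal n * A) (Matrix.mul_apply, pow_add).
* hankel_ne (M = N): det = det A * (∏ n b) * det A, A = Matrix.vandermonde z, det <> 0 by Matrix.det_vandermonde_ne_zero_iff (z injective); Finset.prod_ne_zero_iff.
* hankel_zero (N < M): rank (Aᵀ * (diagonal n * A)) <= rank Aᵀ <= N < M (Matrix.rank_mul_le_left, Matrix.rank_le_width / rank_le_card_width), and a square matrix with non zero determinant has full rank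
  (Matrix.rank_of_isUnit, Matrix.isUnit_iff_isUnit_det).
-/

set_option autoImplicit false

namespace H36NA

theorem B9Si_eq {N M : ℕ} (z n : Fin N → ℂ) :
    (Matrix.of fun i j : Fin M => ∑ b, n b * z b ^ ((i : ℕ) + (j : ℕ))) =
      (Matrix.of fun (b : Fin N) (i : Fin M) => z b ^ (i : ℕ)).transpose *
        (Matrix.diagonal n * (Matrix.of fun (b : Fin N) (i : Fin M) => z b ^ (i : ℕ))) := by
  ext i j
  rw [Matrix.mul_apply, Matrix.of_apply]
  refine Finset.sum_congr rfl fun b _ => ?_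
  rw [Matrix.diagonal_mul, Matrix.transpose_apply, Matrix.of_apply, Matrix.of_apply, pow_add]
  ring

theorem hankel_ne {N : ℕ} (z n : Fin N → ℂ) (hz : Function.Injective z) (hn : ∀ b, n b ≠ 0) :
    (Matrix.of fun i j : Fin N => ∑ b, n b * z b ^ ((i : ℕ) + (j : ℕ))).det ≠ 0 := by
  rw [B9Si_eq]
  have h : (Matrix.of fun (b : Fin N) (i : Fin N) => z b ^ (i : ℕ)).det ≠ 0 :=
    Matrix.det_vandermonde_ne_zero_iff.2 hz
  rw [Matrix.det_mul, Matrix.det_mul, Matrix.det_transpose, Matrix.det_diagonal]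
  exact mul_ne_zero h (mul_ne_zero (Finset.prod_ne_zero_iff.2 fun b _ => hn b) h)

theorem hankel_zero {N M : ℕ} (h : N < M) (z n : Fin N → ℂ) :
    (Matrix.of fun i j : Fin M => ∑ b, n b * z b ^ ((i : ℕ) + (j : ℕ))).det = 0 := by
  by_contra hd
  have h1 := Matrix.rank_of_isUnit _ ((Matrix.isUnit_iff_isUnit_det _).2 (IsUnit.mk0 _ hd))
  rw [B9Si_eq] at h1
  have h2 := (Matrix.rank_mul_le_left
    (Matrix.of fun (b : Fin N) (i : Fin M) => z b ^ (i : ℕ)).transpose
    (Matrix.diagonal n * (Matrix.of fun (b : Fin N) (i : Fin M) => z b ^ (i : ℕ)))).trans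
    (Matrix.rank_le_width _)
  rw [h1, Fintype.card_fin] at h2
  exact absurd h2 (not_le.2 h)

end H36NA
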