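import Pool.Agent.H36.NA.Le
import Pool.Agent.H36.NA.Nb
import Pool.Agent.H36.NA.Si

/-!
# Row B9Nc (MP_b319aa_NA, B9): THE STRUCTURE THEOREM (about 170 lines)

PROOF. ball x1 R in O, R > 0; B := ball x1 R. blow_ex (for LM u O) gives data at every y in B: choose functions Nn y, Ee y, aa y for y in O (e.g. `choose!`, or choose on the subtype B). Nn y <= m := finrank K V (the E b are non zero and internal: Nn <= ∑ finrank (E b) = m, as
in L4: hsum; Submodule.one_le_finrank_iff). n := the maximum of Nn y over y in B (exists: a bounded non empty set of naturals; y = some yn attains it).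
pj j y := pw (Ee y) (aa y) j is continuous on B for every j (near_pw at each y0 in B, with data at y0: for y near y0 in B |pj j y - pj j y0| <= ep). H y := det (of fun i j : Fin n => pj (i + j) y): continuous on B (Continuous matrix determinant: sums of products; ContinuousOn).
For y in B: pj (i+j) y = ∑_b nn * (conj (aa y b))^(i+j). If Nn y = n then H y <> 0 (hankel_ne: conj injective, aa y injective, nn >= 1, after rewriting Nn y = n: subst / generalize); if Nn y < n then H y = 0 (hankel_zero).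
(a) if y in B, H y <> 0: chart at y. There is rho > 0 with ball y rho in B, and every data (N', E', a') at y' in ball y rho has N' <= Nn y = n: pw E' a' = pw (Ee y') (aa y') (pw_uniq); if N' > Nn y' then the N' x N' Hankel determinant of pw E' a' is <> 0 (hankel_ne) but
    computed with (Ee y', aa y') it is 0 (hankel_zero): contradiction. So N' <= Nn y' <= n. chart_max (rmax := rho): r, T, Cht F u y r (Nn y) (Ee y) T with harmonic T.
(b) H is complex differentiable at y in B with H y <> 0: hankel_hol with the chart of (a) on a ball y r'' with r'' <= r and ball y r'' in B (restrict the chart: Cht on a smaller ball: all fields restrict; c1 by mono) and P := H (hP: the chosen data).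
(c) H46SB.rado: H is DifferentiableOn ℂ on B (isOpen_ball). H is not identically 0 on B (H yn <> 0). DifferentiableOn.analyticOnNhd isOpen_ball; AnalyticOnNhd.eqOn_zero_or_eventually_ne_zero_of_preconnected (or eqOn_zero_of_preconnected_of_frequently_eq_zero) on the
    preconnected ball: near x1, H y <> 0 for y <> x1: there is r in (0, R) with H y <> 0 for y in ball x1 r, y <> x1. By (a) every such y has a chart.
-/

set_option autoImplicit false

namespace H36NA

open H50NA H1NA MeasureTheory Set Filter Topology Metric InnerProductSpace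

variable {K : Type} [Field K] (F : VF K) {V : Type} [AddCommGroup V] [Module K V] [Module.Finite K V]

theorem B9Nc_nn {u : ℂ → Nm F V} {y : ℂ} {N : ℕ} {E : Fin N → Submodule K V} {a : Fin N → ℂ}
    (hB : Blow F u y N E a) (b : Fin N) : ((nn E b : ℝ) : ℂ) ≠ 0 := by
  have h1 : 1 ≤ Module.finrank K (E b) := Submodule.one_le_finrank_iff.2 (hB.nz b)
  unfold nn
  rw [Complex.ofReal_natCast]
  exact_mod_cast (by omega : Module.finrank K (E b) ≠ 0)

theorem B9Nc_ne {u : ℂ → Nm F V} {y : ℂ} {N M : ℕ} {E : Fin N → Submodule K V} {a : Fin N → ℂ}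
    (hB : Blow F u y N E a) (h : N = M) :
    (Matrix.of fun i j : Fin M => pw E a ((i : ℕ) + (j : ℕ))).det ≠ 0 := by
  subst h
  exact hankel_ne (fun b => starRingEnd ℂ (a b)) (fun b => ((nn E b : ℝ) : ℂ))
    (fun b b' hbb => hB.inj ((starRingEnd ℂ).injective hbb)) (fun b => B9Nc_nn F hB b)

theorem B9Nc_zero {N M : ℕ} (E : Fin N → Submodule K V) (a : Fin N → ℂ) (h : N < M) :
    (Matrix.of fun i j : Fin M => pw E a ((i : ℕ) + (j : ℕ))).det = 0 :=
  hankel_zero h (fun b => starRingEnd ℂ (a b)) (fun b => ((nn E b : ℝ) : ℂ))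

theorem B9Nc_le {u : ℂ → Nm F V} {y : ℂ} {N : ℕ} {E : Fin N → Submodule K V} {a : Fin N → ℂ}
    (hB : Blow F u y N E a) : N ≤ Module.finrank K V := by
  classical
  have h1 := hB.int.submodule_iSupIndep.subtype_ne_bot_le_finrank
  have h2 : Fintype.card {i // E i ≠ ⊥} = N := by
    rw [Fintype.card_subtype, Finset.filter_true_of_mem (fun b _ => hB.nz b), Finset.card_univ,
      Fintype.card_fin]
  rw [h2] at h1
  exact h1

theorem B9Nc_cmp {u : ℂ → Nm F V} {O : Set ℂ} (hu : LM u O) {y : ℂ} (hy : y ∈ O) {N N' : ℕ}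
    {E : Fin N → Submodule K V} {a : Fin N → ℂ} (hB : Blow F u y N E a)
    {E' : Fin N' → Submodule K V} {a' : Fin N' → ℂ} (hB' : Blow F u y N' E' a') : N' ≤ N := by
  by_contra hlt
  rw [not_le] at hlt
  apply B9Nc_ne F hB' rfl
  have h1 : (Matrix.of fun i j : Fin N' => pw E' a' ((i : ℕ) + (j : ℕ))) =
      Matrix.of fun i j : Fin N' => pw E a ((i : ℕ) + (j : ℕ)) := by
    ext i j
    rw [Matrix.of_apply, Matrix.of_apply]
    exact pw_uniq F hu hy hB hB' _
  rw [h1]
  exact B9Nc_zero E a hlt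

theorem str (hR : Rf F) {u : ℂ → Nm F V} {O : Set ℂ} (hu : LM u O) {x1 : ℂ} (hx : x1 ∈ O) :
    ∃ r : ℝ, 0 < r ∧ ball x1 r ⊆ O ∧ ∀ y ∈ ball x1 r, y ≠ x1 →
      ∃ (rho : ℝ) (N : ℕ) (E : Fin N → Submodule K V) (T : Fin N → ℂ → ℝ), Cht F u y rho N E T := by
  classical
  have hOo : IsOpen O := hu.opn
  obtain ⟨R, hRp, hRO⟩ := Metric.isOpen_iff.1 hOo x1 hx
  have hdat : ∀ y : ℂ, ∃ (N : ℕ) (E : Fin N → Submodule K V) (a : Fin N → ℂ),
      y ∈ O → Blow F u y N E a := by
    intro y
    by_cases hy : y ∈ O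
    · obtain ⟨N, E, a, h⟩ := blow_ex F hR hu hy
      exact ⟨N, E, a, fun _ => h⟩
    · exact ⟨0, Fin.elim0, Fin.elim0, fun h => absurd h hy⟩
  choose Nn Ee aa hBl using hdat
  -- the maximum of Nn
  obtain ⟨yn, hyn, hmax⟩ : ∃ yn ∈ ball x1 R, ∀ y ∈ ball x1 R, Nn y ≤ Nn yn := by
    have hne : (Nn '' ball x1 R).Nonempty := ⟨Nn x1, x1, mem_ball_self hRp, rfl⟩
    have hbd : BddAbove (Nn '' ball x1 R) := by
      refine ⟨Module.finrank K V, ?_⟩
      rintro k ⟨y, hy, rfl⟩
      exact B9Nc_le F (hBl y (hRO hy))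
    obtain ⟨yn, h1, h2⟩ := Nat.sSup_mem hne hbd
    refine ⟨yn, h1, fun y hy => ?_⟩
    rw [h2]
    exact le_csSup hbd ⟨y, hy, rfl⟩
  obtain ⟨n, hn⟩ : ∃ n : ℕ, n = Nn yn := ⟨_, rfl⟩
  rw [← hn] at hmax
  obtain ⟨H, hH⟩ : ∃ H : ℂ → ℂ, H = fun y =>
      (Matrix.of fun i j : Fin n => pw (Ee y) (aa y) ((i : ℕ) + (j : ℕ))).det := ⟨_, rfl⟩
  -- continuity
  have hpc : ∀ j : ℕ, ContinuousOn (fun y => pw (Ee y) (aa y) j) (ball x1 R) := by
    intro j
    rw [Metric.continuousOn_iff]
    intro y0 hy0 ep hep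
    obtain ⟨r, hr, hrO, h1⟩ := near_pw F hu (hRO hy0) (hBl y0 (hRO hy0)) j (half_pos hep)
    refine ⟨r, hr, fun y hy hyr => ?_⟩
    rw [dist_eq_norm]
    exact (h1 y hyr (Nn y) (Ee y) (aa y) (hBl y (hRO hy))).trans_lt (half_lt_self hep)
  have hHc : ContinuousOn H (ball x1 R) := by
    rw [hH, continuousOn_iff_continuous_restrict]
    have h1 : Continuous (fun y : ball x1 R =>
        (Matrix.of fun i j : Fin n => pw (Ee y) (aa y) ((i : ℕ) + (j : ℕ)))) := by
      apply continuous_matrix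
      intro i j
      exact (continuousOn_iff_continuous_restrict.1 (hpc ((i : ℕ) + (j : ℕ))))
    exact h1.matrix_det
  have hHn : ∀ y ∈ ball x1 R, H y ≠ 0 → Nn y = n := by
    intro y hy h0
    by_contra hne
    apply h0
    rw [hH]
    exact B9Nc_zero (Ee y) (aa y) (lt_of_le_of_ne (hmax y hy) hne)
  have hHyn : H yn ≠ 0 := by
    rw [hH]
    exact B9Nc_ne F (hBl yn (hRO hyn)) hn.symm
  -- charts
  have hcht : ∀ y ∈ ball x1 R, H y ≠ 0 → ∃ (r : ℝ) (T : Fin (Nn y) → ℂ → ℝ),
      Cht F u y r (Nn y) (Ee y) T ∧ ball y r ⊆ O ∧ ∀ b, HarmonicOnNhd (T b) (ball y r) := by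
    intro y hy h0
    obtain ⟨rho, hrho, hrhoB⟩ := Metric.isOpen_iff.1 (isOpen_ball : IsOpen (ball x1 R)) y hy
    refine chart_max F hR hu (hRO hy) (hBl y (hRO hy)) hrho ?_
    intro y' hy' N' E' a' hB'
    have hy'B := hrhoB hy'
    rw [hHn y hy h0]
    exact (B9Nc_cmp F hu (hRO hy'B) (hBl y' (hRO hy'B)) hB').trans (hmax y' hy'B)
  -- holomorphy
  have hHd : DifferentiableOn ℂ H (ball x1 R) := by
    refine H46SB.rado isOpen_ball hHc ?_
    intro y hy h0
    obtain ⟨r, T, hc, hrO, hT⟩ := hcht y hy h0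
    refine hankel_hol F hu hc hrO hT n (P := H) ?_
    intro z hz
    refine ⟨Nn z, Ee z, aa z, hBl z (hrO hz), ?_⟩
    rw [hH]
  have hHa : AnalyticOnNhd ℂ H (ball x1 R) := hHd.analyticOnNhd isOpen_ball
  have hpunc : ∀ᶠ z in 𝓝[≠] x1, H z ≠ 0 := by
    rcases (hHa x1 (mem_ball_self hRp)).eventually_eq_zero_or_eventually_ne_zero with h | h
    · exfalso
      have h1 := hHa.eqOn_zero_of_preconnected_of_eventuallyEq_zero
        (convex_ball x1 R).isPreconnected (mem_ball_self hRp) h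
      exact hHyn (h1 hyn)
    · exact h
  obtain ⟨e, he, h2⟩ := Metric.mem_nhdsWithin_iff.1 hpunc
  refine ⟨min e R, lt_min he hRp, (ball_subset_ball (min_le_right _ _)).trans hRO, ?_⟩
  intro y hy hne
  have hyR : y ∈ ball x1 R := ball_subset_ball (min_le_right _ _) hy
  have hy0 : H y ≠ 0 := h2 ⟨ball_subset_ball (min_le_left _ _) hy, hne⟩
  obtain ⟨r, T, hc, _, _⟩ := hcht y hyR hy0
  exact ⟨r, Nn y, Ee y, T, hc⟩

end H36NA
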