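import Pool.Agent.H36.NA.Df

/-!
# Row B9Sa (MP_b319aa_NA, B9): the list of relative positions computed in two decompositions (about 110 lines)

PROOF. be := afm E' q c is splittable (afm_sn), split along E' with rs (E' k) be = trl (rs (E' k) q) (c k) (afm_spd).
For b : Fin N choose (H50NA.common for the splittable norms rs (E b) q, rs (E b) be; H50NA.rs_sn) a basis v b : Bs K (E b) splitting both. The collected basis hE.collectedBasis v (index type Σ b, Fin (finrank (E b)))
splits q and be (H31NA.coll_spl with h1, h3), and its value at ⟨b, i⟩ is (v b i : V) (DirectSum.IsInternal.collectedBasis_coe). Put la b i := be (v b i) - q (v b i).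
First claim: H50NA.rd_eq for rs (E b) q, rs (E b) be and v b.
For k : Fin N' choose any basis v' k : Bs K (E' k) splitting rs (E' k) q (rs_sn gives SN); it also splits trl (rs (E' k) q) (c k) = rs (E' k) be (for x <> 0, trl adds the constant c k; basis vectors are non zero), so
hE'.collectedBasis v' splits q and be (coll_spl), with be - q = c k at ⟨k, i⟩.
H31NA.relpos_gen gives s : (Σ k, Fin (finrank (E' k))) ≃ (Σ b, Fin (finrank (E b))) with equal differences, so for every φ: ∑_{⟨b,i⟩} φ (la b i) = ∑_{⟨k,i⟩} φ (c k) (Equiv.sum_comp), and by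
Fintype.sum_sigma the left side is ∑ b, ∑ i, φ (la b i), the right side ∑ k, finrank (E' k) * φ (c k) = ∑ k, nn E' k * φ (c k).
-/

set_option autoImplicit false

namespace H36NA

open H50NA H1NA

variable {K : Type} [Field K] (F : VF K) {V : Type} [AddCommGroup V] [Module K V] [Module.Finite K V]

theorem rel_list {N N' : ℕ} {E : Fin N → Submodule K V} {E' : Fin N' → Submodule K V}
    (hE : DirectSum.IsInternal E) (hE' : DirectSum.IsInternal E') {q : V → ℝ} (hq : SN F q)
    (h1 : SpD E q) (h2 : SpD E' q) (c : Fin N' → ℝ) (h3 : SpD E (afm E' q c)) :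
    ∃ la : (b : Fin N) → Fin (Module.finrank K (E b)) → ℝ,
      (∀ b, ∑ i, la b i = rd F (rs (E b) q) (rs (E b) (afm E' q c))) ∧
      ∀ φ : ℝ → ℝ, ∑ b, ∑ i, φ (la b i) = ∑ k, nn E' k * φ (c k) := by
  have hsn := afm_sn F hE' hq c
  obtain ⟨h4, h5⟩ := afm_spd F hE' hq c
  generalize afm E' q c = be at hsn h3 h4 h5 ⊢
  choose v hv using fun b => common F (rs_sn F (E b) hq) (rs_sn F (E b) hsn)
  have hv' : ∀ k, ∃ w : Bs K (E' k), Spl F w (rs (E' k) q) := fun k => (rs_sn F (E' k) hq).2
  choose v' hv' using hv'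
  have hv2 : ∀ k, Spl F (v' k) (rs (E' k) be) := by
    intro k x hx
    have h6 : ∀ y : E' k, y ≠ 0 → rs (E' k) be y = rs (E' k) q y + c k := by
      intro y hy
      rw [h5 k]
      unfold trl
      rw [if_neg hy]
    have hb : ∀ i, v' k i ≠ 0 := fun i => (v' k).ne_zero i
    obtain ⟨e1, i, e2, e3⟩ := hv' k x hx
    rw [h6 x hx]
    constructor
    · intro j hj
      rw [h6 _ (hb j)]
      linarith [e1 j hj]
    · refine ⟨i, e2, ?_⟩
      rw [h6 _ (hb i), e3]
      ring
  have s1 := H31NA.coll_spl F hE v h1 (fun b => (hv b).1)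
  have s2 := H31NA.coll_spl F hE v h3 (fun b => (hv b).2)
  have s3 := H31NA.coll_spl F hE' v' h2 hv'
  have s4 := H31NA.coll_spl F hE' v' h4 hv2
  obtain ⟨s, hs⟩ := H31NA.relpos_gen F s1 s2 s3 s4
  refine ⟨fun b i => be (v b i : V) - q (v b i : V), ?_, ?_⟩
  · intro b
    rw [rd_eq F (hv b).1 (hv b).2]
    rfl
  · intro φ
    have h7 : ∑ b, ∑ i, φ (be (v b i : V) - q (v b i : V)) =
        ∑ a : (b : Fin N) × Fin (Module.finrank K (E b)), φ (be (hE.collectedBasis v a) - q (hE.collectedBasis v a)) := by
      rw [Fintype.sum_sigma]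
      refine Finset.sum_congr rfl fun b _ => Finset.sum_congr rfl fun i _ => ?_
      rw [DirectSum.IsInternal.collectedBasis_coe]
    have h8 : ∀ k (i : Fin (Module.finrank K (E' k))), be (hE'.collectedBasis v' ⟨k, i⟩) - q (hE'.collectedBasis v' ⟨k, i⟩) = c k := by
      intro k i
      rw [DirectSum.IsInternal.collectedBasis_coe]
      have h9 : rs (E' k) be (v' k i) = rs (E' k) q (v' k i) + c k := by
        rw [h5 k]
        unfold trl
        rw [if_neg ((v' k).ne_zero i)]
      have h10 : be (v' k i : V) = q (v' k i : V) + c k := h9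
      change be (v' k i : V) - q (v' k i : V) = c k
      rw [h10]
      ring
    have h11 : ∑ a : (b : Fin N) × Fin (Module.finrank K (E b)), φ (be (hE.collectedBasis v a) - q (hE.collectedBasis v a)) =
        ∑ a : (k : Fin N') × Fin (Module.finrank K (E' k)), φ (be (hE'.collectedBasis v' a) - q (hE'.collectedBasis v' a)) := by
      rw [← Equiv.sum_comp s]
      refine Finset.sum_congr rfl fun a _ => ?_
      rw [hs]
    rw [h7, h11, Fintype.sum_sigma]
    refine Finset.sum_congr rfl fun k _ => ?_
    simp only [h8]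
    rw [Finset.sum_const, Finset.card_univ, Fintype.card_fin, nsmul_eq_mul]
    rfl

end H36NA
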