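import Pool.Agent.H36.NA.Df

/-!
# Row B9Sb (MP_b319aa_NA, B9): the affine norms of a limit of split norms are split (about 170 lines)

PROOF. Write x_b := cpt E b x, x'_k := cpt E' k x. r from rad_ex: Rad q r. C > 0 with |c k| <= C for all k (finite; e.g. 1 + ∑ |c k|).
For x <> 0, be_s := afm E' q (s c): be_s(x) is the minimum over {k : x'_k <> 0} of q(x'_k) + s c_k (unfold afm: the infimum of a finite non empty set is attained and is a lower bound; non empty: H31NA.cpt_ex).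
J'(x) := {k : x'_k <> 0 and q(x'_k) = q x}, non empty (h2 : SpD E' q). w(x) := minimum of c over J'(x) (define it by sInf of the image, or choose a minimiser).
(A) if s > 0, s C <= r, x <> 0: be_s(x) = q x + s w(x). Indeed a minimiser k0 in J'(x) of c gives the value q x + s w x; k in J'(x): q x + s c_k >= q x + s w x; k not in J'(x), x'_k <> 0: q x < q(x'_k) (h2), so
    q x + 4 r <= q(x'_k) (Rad) and q(x'_k) + s c_k >= q x + 4 r - s C >= q x + s C >= q x + s w x. Also |w x| <= C.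
(B) for x <> 0 and b with x_b <> 0, q(x_b) = q x: w x <= w(x_b); and there is b with x_b <> 0, q(x_b) = q x, w(x_b) = w x.
    Let ep in (0,1) and take l, v from hap with rho small: l C <= r, 2 l C + 2 l < 4 r. |v y - q y - l w y| <= ep l for all y <> 0 by (A). v is split along E: v x <= v(x_b) for x_b <> 0, v x = v(x_b0) for some b0 with x_b0 <> 0.
    If q(x_b) = q x: q x + l w x - ep l <= v x <= v(x_b) <= q x + l w(x_b) + ep l, so w x <= w(x_b) + 2 ep; ep -> 0 (le_of_forall_pos_le_add).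
    q(x_b0) + l w(x_b0) - ep l <= v(x_b0) = v x <= q x + l w x + ep l; if q(x_b0) <> q x then q(x_b0) >= q x + 4 r (h1 : SpD E q gives q x <= q(x_b0); Rad), contradiction with 2 l C + 2 l < 4 r. So q(x_b0) = q x and
    w(x_b0) <= w x + 2 ep. If all (finitely many) b with x_b <> 0, q(x_b) = q x had w(x_b) > w x, take ep < half of the minimal difference (and < 1): contradiction. With the first part w(x_b) = w x for some such b.
(C) s0 := r/C. For 0 < s <= s0, x <> 0: b with x_b <> 0: be_s(x_b) = q(x_b) + s w(x_b) (A); if q(x_b) = q x then >= q x + s w x = be_s x by (B); otherwise q(x_b) >= q x + 4 r and be_s(x_b) >= q x + 4 r - r >= q x + s w x.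
    The b of (B) gives equality. This is SpD E be_s.
-/

set_option autoImplicit false

namespace H36NA

open H50NA H1NA

variable {K : Type} [Field K] (F : VF K) {V : Type} [AddCommGroup V] [Module K V] [Module.Finite K V]

omit [Module.Finite K V] in
theorem B9Sb_afm {N' : ℕ} {E' : Fin N' → Submodule K V} (hE' : DirectSum.IsInternal E')
    (q : V → ℝ) (c : Fin N' → ℝ) {x : V} (hx : x ≠ 0) :
    (∀ k, cpt E' k x ≠ 0 → afm E' q c x ≤ q (cpt E' k x) + c k) ∧
      ∃ k, cpt E' k x ≠ 0 ∧ afm E' q c x = q (cpt E' k x) + c k := by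
  obtain ⟨S, hS⟩ : ∃ S : Set (Fin N'), S = {k | cpt E' k x ≠ 0} := ⟨_, rfl⟩
  have h1 : afm E' q c x = sInf ((fun b => q (cpt E' b x) + c b) '' S) := by
    unfold afm
    rw [if_neg hx, hS]
  have hf : ((fun b => q (cpt E' b x) + c b) '' S).Finite := Set.toFinite _
  have hn : ((fun b => q (cpt E' b x) + c b) '' S).Nonempty := by
    obtain ⟨k, hk⟩ := H31NA.cpt_ex hE' hx
    exact ⟨_, k, by rw [hS]; exact hk, rfl⟩
  refine ⟨fun k hk => ?_, ?_⟩
  · rw [h1]
    exact csInf_le hf.bddBelow ⟨k, by rw [hS]; exact hk, rfl⟩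
  · obtain ⟨k, hk, h2⟩ := hn.csInf_mem hf
    rw [hS] at hk
    exact ⟨k, hk, by rw [h1]; exact h2.symm⟩

/-- the minimum of c over the leading indices -/
noncomputable def B9Sb_w {N' : ℕ} (E' : Fin N' → Submodule K V) (q : V → ℝ) (c : Fin N' → ℝ)
    (x : V) : ℝ :=
  sInf (c '' {k | cpt E' k x ≠ 0 ∧ q (cpt E' k x) = q x})

omit [Module.Finite K V] in
theorem B9Sb_wmin {N' : ℕ} {E' : Fin N' → Submodule K V} {q : V → ℝ} (h2 : SpD E' q)
    (c : Fin N' → ℝ) {x : V} (hx : x ≠ 0) :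
    (∀ k, cpt E' k x ≠ 0 → q (cpt E' k x) = q x → B9Sb_w E' q c x ≤ c k) ∧
      ∃ k, cpt E' k x ≠ 0 ∧ q (cpt E' k x) = q x ∧ B9Sb_w E' q c x = c k := by
  have hf : (c '' {k | cpt E' k x ≠ 0 ∧ q (cpt E' k x) = q x}).Finite := Set.toFinite _
  have hn : (c '' {k | cpt E' k x ≠ 0 ∧ q (cpt E' k x) = q x}).Nonempty := by
    obtain ⟨k, hk, hk2⟩ := (h2 x hx).2
    exact ⟨_, k, ⟨hk, hk2.symm⟩, rfl⟩
  refine ⟨fun k hk hk2 => csInf_le hf.bddBelow ⟨k, ⟨hk, hk2⟩, rfl⟩, ?_⟩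
  obtain ⟨k, hk, h3⟩ := hn.csInf_mem hf
  exact ⟨k, hk.1, hk.2, h3.symm⟩

omit [Module.Finite K V] in
theorem B9Sb_A {N' : ℕ} {E' : Fin N' → Submodule K V} (hE' : DirectSum.IsInternal E') {q : V → ℝ}
    (h2 : SpD E' q) (c : Fin N' → ℝ) {C r : ℝ} (hC : ∀ k, |c k| ≤ C) (hr : Rad q r) {s : ℝ}
    (hs : 0 < s) (hsC : s * C ≤ r) {x : V} (hx : x ≠ 0) :
    afm E' q (fun k => s * c k) x = q x + s * B9Sb_w E' q c x := by
  obtain ⟨a1, a2⟩ := B9Sb_afm hE' q (fun k => s * c k) hx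
  obtain ⟨w1, w2⟩ := B9Sb_wmin h2 c hx
  apply le_antisymm
  · obtain ⟨k, hk, hk2, hk3⟩ := w2
    have h := a1 k hk
    rw [hk2] at h
    rw [hk3]
    exact h
  · obtain ⟨k, hk, hk2⟩ := a2
    rw [hk2]
    by_cases he : q (cpt E' k x) = q x
    · rw [he]
      have := mul_le_mul_of_nonneg_left (w1 k hk he) hs.le
      simpa using this
    · have h3 : q x < q (cpt E' k x) := lt_of_le_of_ne ((h2 x hx).1 k hk) (Ne.symm he)
      have h4 := hr.2 x _ hx hk h3
      obtain ⟨j, _, _, hj⟩ := w2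
      have h5 : s * B9Sb_w E' q c x ≤ r := by
        rw [hj]
        exact (mul_le_mul_of_nonneg_left ((le_abs_self _).trans (hC j)) hs.le).trans hsC
      have h6 : -r ≤ s * c k := by
        have h7 : -C ≤ c k := (abs_le.1 (hC k)).1
        have h8 := mul_le_mul_of_nonneg_left h7 hs.le
        linarith
      have h9 := hr.1
      linarith

theorem spd_small {N N' : ℕ} {E : Fin N → Submodule K V} {E' : Fin N' → Submodule K V}
    (hE : DirectSum.IsInternal E) (hE' : DirectSum.IsInternal E') {q : V → ℝ} (hq : SN F q)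
    (h1 : SpD E q) (h2 : SpD E' q) (c : Fin N' → ℝ)
    (hap : ∀ ep : ℝ, 0 < ep → ∀ rho : ℝ, 0 < rho → ∃ l : ℝ, 0 < l ∧ l < rho ∧ ∃ v : V → ℝ, SpD E v ∧
      ∀ x, x ≠ 0 → |v x - afm E' q (fun k => l * c k) x| ≤ ep * l) :
    ∃ s0 : ℝ, 0 < s0 ∧ ∀ s : ℝ, 0 < s → s ≤ s0 → SpD E (afm E' q (fun k => s * c k)) := by
  obtain ⟨r, hr⟩ := rad_ex F hq
  obtain ⟨C, hC1, hC⟩ : ∃ C : ℝ, 1 ≤ C ∧ ∀ k, |c k| ≤ C := by
    refine ⟨1 + ∑ k, |c k|, ?_, fun k => ?_⟩
    · have : 0 ≤ ∑ k, |c k| := Finset.sum_nonneg fun k _ => abs_nonneg _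
      linarith
    · have := Finset.single_le_sum (f := fun k => |c k|) (fun k _ => abs_nonneg _)
        (Finset.mem_univ k)
      linarith
  have hC0 : 0 < C := by linarith
  have hr0 : 0 < r := hr.1
  have hwC : ∀ x : V, x ≠ 0 → |B9Sb_w E' q c x| ≤ C := by
    intro x hx
    obtain ⟨k, _, _, hk⟩ := (B9Sb_wmin h2 c hx).2
    rw [hk]
    exact hC k
  -- approximation
  have key : ∀ ep : ℝ, 0 < ep → ∃ l : ℝ, 0 < l ∧ l * C < r ∧ ∃ v : V → ℝ, SpD E v ∧
      ∀ x, x ≠ 0 → |v x - (q x + l * B9Sb_w E' q c x)| ≤ ep * l := by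
    intro ep hep
    obtain ⟨l, hl, hl2, v, hv, hv2⟩ := hap ep hep (r / C) (div_pos hr0 hC0)
    have hl3 : l * C < r := (lt_div_iff₀ hC0).1 hl2
    refine ⟨l, hl, hl3, v, hv, fun x hx => ?_⟩
    rw [← B9Sb_A hE' h2 c hC hr hl hl3.le hx]
    exact hv2 x hx
  have B1 : ∀ x : V, x ≠ 0 → ∀ b, cpt E b x ≠ 0 → q (cpt E b x) = q x →
      B9Sb_w E' q c x ≤ B9Sb_w E' q c (cpt E b x) := by
    intro x hx b hb hqb
    apply le_of_forall_pos_le_add
    intro ep hep
    obtain ⟨l, hl, hl3, v, hv, hv2⟩ := key (ep / 2) (by linarith)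
    have h3 := abs_le.1 (hv2 x hx)
    have h4 := abs_le.1 (hv2 _ hb)
    have h5 := (hv x hx).1 b hb
    rw [hqb] at h4
    have h6 : l * B9Sb_w E' q c x ≤ l * (B9Sb_w E' q c (cpt E b x) + ep) := by
      rw [mul_add]
      linarith [h3.1, h4.2]
    exact le_of_mul_le_mul_left h6 hl
  have B2 : ∀ x : V, x ≠ 0 → ∃ b, cpt E b x ≠ 0 ∧ q (cpt E b x) = q x ∧
      B9Sb_w E' q c (cpt E b x) = B9Sb_w E' q c x := by
    intro x hx
    have B2' : ∀ ep : ℝ, 0 < ep → ep < 1 → ∃ b, (cpt E b x ≠ 0 ∧ q (cpt E b x) = q x) ∧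
        B9Sb_w E' q c (cpt E b x) ≤ B9Sb_w E' q c x + 2 * ep := by
      intro ep hep hep1
      obtain ⟨l, hl, hl3, v, hv, hv2⟩ := key ep hep
      obtain ⟨b, hb, hb2⟩ := (hv x hx).2
      have h3 := abs_le.1 (hv2 x hx)
      have h4 := abs_le.1 (hv2 _ hb)
      rw [hb2] at h3
      have hle := (h1 x hx).1 b hb
      by_cases he : q (cpt E b x) = q x
      · refine ⟨b, ⟨hb, he⟩, ?_⟩
        rw [he] at h4
        have h6 : l * B9Sb_w E' q c (cpt E b x) ≤ l * (B9Sb_w E' q c x + 2 * ep) := by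
          rw [mul_add]
          linarith [h3.2, h4.1]
        exact le_of_mul_le_mul_left h6 hl
      · exfalso
        have h5 := hr.2 x _ hx hb (lt_of_le_of_ne hle (Ne.symm he))
        have h6 : l * B9Sb_w E' q c x ≤ l * C :=
          mul_le_mul_of_nonneg_left ((le_abs_self _).trans (hwC x hx)) hl.le
        have h7 : l * (-C) ≤ l * B9Sb_w E' q c (cpt E b x) :=
          mul_le_mul_of_nonneg_left (abs_le.1 (hwC _ hb)).1 hl.le
        have h8 : l * 1 ≤ l * C := mul_le_mul_of_nonneg_left hC1 hl.le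
        have h9 : ep * l ≤ 1 * l := mul_le_mul_of_nonneg_right hep1.le hl.le
        linarith [h3.2, h4.1]
    obtain ⟨T, hT⟩ : ∃ T : Set (Fin N), T = {b | cpt E b x ≠ 0 ∧ q (cpt E b x) = q x} := ⟨_, rfl⟩
    have hTn : T.Nonempty := by
      obtain ⟨b, hb, _⟩ := B2' (1 / 2) (by norm_num) (by norm_num)
      exact ⟨b, by rw [hT]; exact hb⟩
    obtain ⟨b, hb, hb2⟩ := Set.exists_min_image T (fun b => B9Sb_w E' q c (cpt E b x))
      (Set.toFinite T) hTn
    have hb3 := hb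
    rw [hT] at hb3
    refine ⟨b, hb3.1, hb3.2, le_antisymm ?_ (B1 x hx b hb3.1 hb3.2)⟩
    apply le_of_forall_pos_le_add
    intro ep hep
    obtain ⟨b', hb', hb'2⟩ := B2' (min (ep / 2) (1 / 2)) (by positivity)
      ((min_le_right _ _).trans_lt (by norm_num))
    have h3 := hb2 b' (by rw [hT]; exact hb')
    have h4 : min (ep / 2) (1 / 2) ≤ ep / 2 := min_le_left _ _
    linarith
  refine ⟨r / C, div_pos hr0 hC0, fun s hs hs0 => ?_⟩
  have hsC : s * C ≤ r := (le_div_iff₀ hC0).1 hs0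
  have hA : ∀ x : V, x ≠ 0 → afm E' q (fun k => s * c k) x = q x + s * B9Sb_w E' q c x :=
    fun x hx => B9Sb_A hE' h2 c hC hr hs hsC hx
  intro x hx
  refine ⟨fun b hb => ?_, ?_⟩
  · rw [hA x hx, hA _ hb]
    by_cases he : q (cpt E b x) = q x
    · rw [he]
      have := mul_le_mul_of_nonneg_left (B1 x hx b hb he) hs.le
      linarith
    · have h5 := hr.2 x _ hx hb (lt_of_le_of_ne ((h1 x hx).1 b hb) (Ne.symm he))
      have h6 : s * B9Sb_w E' q c x ≤ s * C :=
        mul_le_mul_of_nonneg_left ((le_abs_self _).trans (hwC x hx)) hs.le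
      have h7 : s * (-C) ≤ s * B9Sb_w E' q c (cpt E b x) :=
        mul_le_mul_of_nonneg_left (abs_le.1 (hwC _ hb)).1 hs.le
      linarith
  · obtain ⟨b, hb, he, hw⟩ := B2 x hx
    refine ⟨b, hb, ?_⟩
    rw [hA x hx, hA _ hb, he, hw]

end H36NA
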