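import Pool.Agent.H36.NA.Sa
import Pool.Agent.H36.NA.Sb

/-!
# Row B9Sc (MP_b319aa_NA, B9): at a point y the derivatives of the degrees are sums of values of the blow-up data (about 190 lines)

PROOF. q := (u y).1, c k := ip (a' k) t, C := 1 + ‖t‖, m := finrank K V.
(1) scale: for ep, r > 0 there is l with 0 < l < r, l ‖t‖ < rho and, with v := (u (y + (l : ℂ) * t)).1: SpD E v (hs), and |v x - afm E' q (fun k => l * c k) x| <= ep l for x <> 0. Indeed take l1 from hB.app with ep/C
    and min r (rho) ; l := l1/C; the point z = y + l t has dist z y = l ‖t‖ <= l1 and (a' k).re * (z-y).re + (a' k).im * (z-y).im = ip (a' k) (l t) = l * c k (ip_smul); error <= (ep/C) l1 = ep l.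
(2) spd_small gives s0 (h1 := hs y at the centre, h2 := hB.spl).
(3) for every del > 0 there is la with |∑_i la b i - nn E b * g b| <= del for all b and the identity for all φ (with c): take l from (1) with ep := del/(2 (m + 1)) and r so small that l <= s0 and |rd (rs (E b) q)(rs (E b) v)/l - nn E b * g b| <= del/2
    (hg; finitely many b). rel_list for the numbers l * c k gives la0; la := la0/l: ∑_b ∑_i φ(la b i) = ∑ nn E' k φ(l c k/l) (use φ ∘ (·/l)). ∑_i la b i = rd (rs (E b) q)(rs (E b) be)/l, be := afm E' q (l c), and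
    |rd (rs (E b) q)(rs (E b) be) - rd (rs (E b) q)(rs (E b) v)| = |rd (rs (E b) v)(rs (E b) be)| (rd_add) <= finrank (E b) * ep l <= m ep l (rd_le_sup, Submodule.finrank_le).
(4) exactness by finiteness: all la as in (3) take values in the finite set {c k} (apply the identity to φ = indicator of {la b i}: the left side is >= 1, so some c k = la b i), so there are only finitely many such functions
    (Set.Finite.pi / functions into a finite type: la b i = c (s b i) with s : (b : Fin N) → Fin (finrank (E b)) → Fin N', a Fintype). If for each of them some b had ∑_i la b i <> nn E b * g b, then del := half of the minimum over the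
    finitely many s (with the identity) of max_b |∑_i c(s b i) - nn E b g b| > 0 would contradict (3). [Convenient: by_contra, choose for each s with the identity a b with a non zero difference, Finite.exists_min or induction on Finset.univ.]
-/

set_option autoImplicit false

namespace H36NA

open H50NA H1NA MeasureTheory Set Filter Topology Metric

variable {K : Type} [Field K] (F : VF K) {V : Type} [AddCommGroup V] [Module K V] [Module.Finite K V]

omit [Module.Finite K V] in
private theorem Sc_scale {u : ℂ → Nm F V} {y : ℂ} {N' : ℕ}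
    {E' : Fin N' → Submodule K V} {a' : Fin N' → ℂ} (hB : Blow F u y N' E' a')
    {rho : ℝ} (hrho : 0 < rho) (t : ℂ) {ep r : ℝ} (hep : 0 < ep) (hr : 0 < r) :
    ∃ l : ℝ, 0 < l ∧ l < r ∧ y + (l : ℂ) * t ∈ ball y rho ∧
      ∀ x, x ≠ 0 → |(u (y + (l : ℂ) * t)).1 x - afm E' (u y).1 (fun k => l * ip (a' k) t) x| ≤
        ep * l := by
  have hC : 0 < 1 + ‖t‖ := by positivity
  obtain ⟨l1, h1, h2, h3⟩ := hB.app (ep / (1 + ‖t‖)) (div_pos hep hC) (min r rho) (lt_min hr hrho)
  have hl : 0 < l1 / (1 + ‖t‖) := div_pos h1 hC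
  have e1 : l1 / (1 + ‖t‖) * (1 + ‖t‖) = l1 := div_mul_cancel₀ _ hC.ne'
  have hle : l1 / (1 + ‖t‖) ≤ l1 := by
    have : 0 ≤ l1 / (1 + ‖t‖) * ‖t‖ := by positivity
    linarith
  have hlt : l1 / (1 + ‖t‖) * ‖t‖ ≤ l1 := by linarith
  have hd : dist (y + ((l1 / (1 + ‖t‖) : ℝ) : ℂ) * t) y ≤ l1 := by
    rw [dist_eq_norm, add_sub_cancel_left, norm_mul, Complex.norm_real, Real.norm_eq_abs,
      abs_of_pos hl]
    exact hlt
  refine ⟨l1 / (1 + ‖t‖), hl, lt_of_le_of_lt hle (lt_of_lt_of_le h2 (min_le_left _ _)), ?_, ?_⟩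
  · rw [mem_ball]
    exact lt_of_le_of_lt hd (lt_of_lt_of_le h2 (min_le_right _ _))
  · intro x hx
    have h4 := h3 _ hd x hx
    have e2 : (fun k => (a' k).re * ((y + ((l1 / (1 + ‖t‖) : ℝ) : ℂ) * t) - y).re +
        (a' k).im * ((y + ((l1 / (1 + ‖t‖) : ℝ) : ℂ) * t) - y).im) =
        fun k => l1 / (1 + ‖t‖) * ip (a' k) t := by
      funext k
      rw [add_sub_cancel_left]
      exact ip_smul (a' k) (l1 / (1 + ‖t‖)) t
    rw [e2] at h4
    refine h4.trans (le_of_eq ?_)
    ring

private theorem Sc_appr {u : ℂ → Nm F V} {y : ℂ} {N N' : ℕ} {E : Fin N → Submodule K V}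
    {E' : Fin N' → Submodule K V} {a' : Fin N' → ℂ} (hB : Blow F u y N' E' a')
    (hE : DirectSum.IsInternal E) {rho : ℝ} (hrho : 0 < rho) (hs : ∀ z ∈ ball y rho, SpD E (u z).1)
    (t : ℂ) {g : Fin N → ℝ}
    (hg : ∀ b, Tendsto (fun s : ℝ =>
      rd F (rs (E b) (u y).1) (rs (E b) (u (y + (s : ℂ) * t)).1) / s) (𝓝[>] 0) (𝓝 (nn E b * g b)))
    {del : ℝ} (hdel : 0 < del) :
    ∃ la : (b : Fin N) → Fin (Module.finrank K (E b)) → ℝ,
      (∀ b, |∑ i, la b i - nn E b * g b| ≤ del) ∧
      ∀ φ : ℝ → ℝ, ∑ b, ∑ i, φ (la b i) = ∑ k, nn E' k * φ (ip (a' k) t) := by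
  have hq : SN F (u y).1 := (u y).2
  have h1 : SpD E (u y).1 := hs y (mem_ball_self hrho)
  have h2 : SpD E' (u y).1 := hB.spl
  obtain ⟨s0, hs0, hs1⟩ := spd_small F hE hB.int hq h1 h2 (fun k => ip (a' k) t) (by
    intro ep hep r hr
    obtain ⟨l, k1, k2, k3, k4⟩ := Sc_scale F hB hrho t hep hr
    exact ⟨l, k1, k2, (u (y + (l : ℂ) * t)).1, hs _ k3, k4⟩)
  have hev : ∀ᶠ s : ℝ in 𝓝[>] 0, ∀ b,
      |rd F (rs (E b) (u y).1) (rs (E b) (u (y + (s : ℂ) * t)).1) / s - nn E b * g b| < del / 2 := by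
    rw [eventually_all]
    intro b
    have := (Metric.tendsto_nhds.1 (hg b)) (del / 2) (by positivity)
    simpa only [Real.dist_eq] using this
  obtain ⟨r, hr, hr1⟩ := (nhdsGT_basis (0 : ℝ)).eventually_iff.1 hev
  set m : ℝ := (Module.finrank K V : ℝ) with hm
  have hm0 : 0 ≤ m := Nat.cast_nonneg _
  obtain ⟨l, l1, l2, l3, l4⟩ := Sc_scale F hB hrho t (ep := del / (2 * (m + 1))) (r := min r s0)
    (by positivity) (lt_min hr hs0)
  have hbe := hs1 l l1 (l2.le.trans (min_le_right _ _))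
  have hbs : SN F (afm E' (u y).1 (fun k => l * ip (a' k) t)) := afm_sn F hB.int hq _
  obtain ⟨la, m1, m2⟩ := rel_list F hE hB.int hq h1 h2 (fun k => l * ip (a' k) t) hbe
  refine ⟨fun b i => la b i / l, fun b => ?_, fun φ => ?_⟩
  · have e1 : ∑ i, la b i / l =
        rd F (rs (E b) (u y).1) (rs (E b) (afm E' (u y).1 (fun k => l * ip (a' k) t))) / l := by
      rw [← Finset.sum_div, m1 b]
    have hv := (u (y + (l : ℂ) * t)).2
    have e2 := rd_add F (rs_sn F (E b) hq) (rs_sn F (E b) hv) (rs_sn F (E b) hbs)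
    have e3 := rd_le_sup F (rs_sn F (E b) hv) (rs_sn F (E b) hbs)
      (c := del / (2 * (m + 1)) * l) (fun x hx => by
        have := l4 (x : V) (fun h0 => hx (Subtype.ext h0))
        rw [abs_sub_comm] at this
        exact this)
    have e4 := hr1 ⟨l1, lt_of_lt_of_le l2 (min_le_left _ _)⟩ b
    have e5 : (Module.finrank K (E b) : ℝ) ≤ m := by
      rw [hm]
      exact_mod_cast Submodule.finrank_le (E b)
    rw [e1, e2, add_div]
    have e6 : |rd F (rs (E b) (u (y + (l : ℂ) * t)).1)
        (rs (E b) (afm E' (u y).1 (fun k => l * ip (a' k) t))) / l| ≤ del / 2 := by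
      rw [abs_div, abs_of_pos l1, div_le_iff₀ l1]
      refine e3.trans ?_
      have e7 : del / (2 * (m + 1)) * m ≤ del / 2 := by
        rw [div_mul_eq_mul_div, div_le_div_iff₀ (by positivity) (by norm_num)]
        nlinarith
      calc (Module.finrank K (E b) : ℝ) * (del / (2 * (m + 1)) * l)
          ≤ m * (del / (2 * (m + 1)) * l) := mul_le_mul_of_nonneg_right e5 (by positivity)
        _ = del / (2 * (m + 1)) * m * l := by ring
        _ ≤ del / 2 * l := mul_le_mul_of_nonneg_right e7 l1.le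
    rw [abs_le] at e6 ⊢
    rw [abs_lt] at e4
    constructor <;> linarith [e4.1, e4.2, e6.1, e6.2]
  · have := m2 (fun x => φ (x / l))
    rw [this]
    refine Finset.sum_congr rfl fun k _ => ?_
    show nn E' k * φ (l * ip (a' k) t / l) = _
    rw [mul_div_cancel_left₀ _ l1.ne']

theorem lists {u : ℂ → Nm F V} {y : ℂ} {N N' : ℕ} {E : Fin N → Submodule K V}
    {E' : Fin N' → Submodule K V} {a' : Fin N' → ℂ} (hB : Blow F u y N' E' a')
    (hE : DirectSum.IsInternal E) {rho : ℝ} (hrho : 0 < rho) (hs : ∀ z ∈ ball y rho, SpD E (u z).1)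
    (t : ℂ) {g : Fin N → ℝ}
    (hg : ∀ b, Tendsto (fun s : ℝ =>
      rd F (rs (E b) (u y).1) (rs (E b) (u (y + (s : ℂ) * t)).1) / s) (𝓝[>] 0) (𝓝 (nn E b * g b))) :
    ∃ la : (b : Fin N) → Fin (Module.finrank K (E b)) → ℝ, (∀ b, ∑ i, la b i = nn E b * g b) ∧
      ∀ φ : ℝ → ℝ, ∑ b, ∑ i, φ (la b i) = ∑ k, nn E' k * φ (ip (a' k) t) := by
  classical
  set c : Fin N' → ℝ := fun k => ip (a' k) t with hc
  set S : Set ((b : Fin N) → Fin (Module.finrank K (E b)) → Fin N') :=
    {s | ∀ φ : ℝ → ℝ, ∑ b, ∑ i, φ (c (s b i)) = ∑ k, nn E' k * φ (c k)} with hS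
  have key : ∀ del : ℝ, 0 < del → ∃ s ∈ S, ∀ b, |∑ i, c (s b i) - nn E b * g b| ≤ del := by
    intro del hdel
    obtain ⟨la, h1, h2⟩ := Sc_appr F hB hE hrho hs t hg hdel
    have h3 : ∀ (b : Fin N) (i : Fin (Module.finrank K (E b))), ∃ k, c k = la b i := by
      intro b i
      by_contra hno
      push Not at hno
      have h4 := h2 (fun x => if x = la b i then 1 else 0)
      have h5 : ∑ k, nn E' k * (if ip (a' k) t = la b i then (1 : ℝ) else 0) = 0 := by
        refine Finset.sum_eq_zero fun k _ => ?_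
        rw [if_neg (hno k), mul_zero]
      have h6 : (1 : ℝ) ≤ ∑ b', ∑ i', (if la b' i' = la b i then (1 : ℝ) else 0) := by
        calc (1 : ℝ) = if la b i = la b i then 1 else 0 := by rw [if_pos rfl]
          _ ≤ ∑ i', (if la b i' = la b i then (1 : ℝ) else 0) :=
            Finset.single_le_sum (f := fun i' => if la b i' = la b i then (1 : ℝ) else 0)
              (fun i' _ => by split_ifs <;> norm_num) (Finset.mem_univ i)
          _ ≤ _ := Finset.single_le_sum
              (f := fun b' => ∑ i', (if la b' i' = la b i then (1 : ℝ) else 0))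
              (fun b' _ => Finset.sum_nonneg fun i' _ => by split_ifs <;> norm_num)
              (Finset.mem_univ b)
      rw [h5] at h4
      rw [h4] at h6
      norm_num at h6
    choose s hs' using h3
    refine ⟨s, fun φ => ?_, fun b => ?_⟩
    · rw [← h2 φ]
      exact Finset.sum_congr rfl fun b _ => Finset.sum_congr rfl fun i _ => by rw [hs' b i]
    · have e : ∑ i, c (s b i) = ∑ i, la b i := Finset.sum_congr rfl fun i _ => hs' b i
      rw [e]
      exact h1 b
  have hne : S.Nonempty := by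
    obtain ⟨s, h1, _⟩ := key 1 one_pos
    exact ⟨s, h1⟩
  obtain ⟨s, hsS, hmin⟩ := Set.exists_min_image S
    (fun s => ∑ b, |∑ i, c (s b i) - nn E b * g b|) (Set.toFinite S) hne
  have hD : ∑ b, |∑ i, c (s b i) - nn E b * g b| ≤ 0 := by
    by_contra hpos
    rw [not_le] at hpos
    obtain ⟨s', h1, h2⟩ := key ((∑ b, |∑ i, c (s b i) - nn E b * g b|) / (2 * ((N : ℝ) + 1)))
      (by positivity)
    have h3 := hmin s' h1
    have h4 : ∑ b, |∑ i, c (s' b i) - nn E b * g b| ≤
        ∑ _b : Fin N, (∑ b, |∑ i, c (s b i) - nn E b * g b|) / (2 * ((N : ℝ) + 1)) :=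
      Finset.sum_le_sum fun b _ => h2 b
    rw [Finset.sum_const, Finset.card_univ, Fintype.card_fin, nsmul_eq_mul] at h4
    have h5 : (N : ℝ) * ((∑ b, |∑ i, c (s b i) - nn E b * g b|) / (2 * ((N : ℝ) + 1))) <
        ∑ b, |∑ i, c (s b i) - nn E b * g b| := by
      rw [← mul_div_assoc, div_lt_iff₀ (by positivity)]
      have hN : (0 : ℝ) ≤ N := Nat.cast_nonneg N
      nlinarith
    have h6 : ∑ b, |∑ i, c (s b i) - nn E b * g b| ≤ ∑ b, |∑ i, c (s' b i) - nn E b * g b| := h3
    linarith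
  refine ⟨fun b i => c (s b i), fun b => ?_, hsS⟩
  have h1 : |∑ i, c (s b i) - nn E b * g b| ≤ 0 :=
    (Finset.single_le_sum (f := fun b => |∑ i, c (s b i) - nn E b * g b|)
      (fun b _ => abs_nonneg _) (Finset.mem_univ b)).trans hD
  have h2 := abs_nonpos_iff.1 h1
  linarith

end H36NA
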