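import Pool.Agent.H36.NA.Df

/-!
# Row B9Sd (MP_b319aa_NA, B9): local splitting at a blow-up point (about 160 lines)

PROOF. m := finrank K V. e0, r0 from H50NA.main_lemma F hB.int hB.nz hB.inj. r1 from lip_bd with del := e0. R0 > 0 with closedBall x0 R0 in O. l from hB.app with ep := e0/(2 (m + 1)), rho := min r0 (min r1 R0): 0 < l < rho.
Write q := (u x0).1, Lm y := afm E q (fun b => (a b).re * (y - x0).re + (a b).im * (y - x0).im); |(u y).1 x - Lm y x| <= ep l for y in ball x0 l, x <> 0 (and for x = 0 both vanish: SN.1).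
main_lemma for u, x0, r := l: LM u (ball x0 l) by lm_mono (ball x0 l in O).
(i) rd (rs q)(rs (u y)) = rd (rs q)(rs (Lm y)) + rd (rs (Lm y))(rs (u y)) (rd_add, rs_sn, afm_sn); q = afm E q 0 (afm_zero) so the first term is nn E b * ((a b).re ..) exactly (rd_afm with c = 0), the second is bounded by finrank (E b) * ep l
    <= (m + 1) ep l <= e0 l (rd_le_sup).
(ii) |osm E (u y) x - (u y) x| <= 2 ep l: osm E (Lm y) = Lm y (spd_iff, afm_spd) and |osm E (u y) x - osm E (Lm y) x| <= ep l for x <> 0 because both are minima over the same finite set {b : cpt E b x <> 0} of values which differ by <= ep l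
    (H31NA.osm_min for both). So |rd (osm E (u y)) (u y)| <= m * 2 ep l <= e0 l (rd_le_sup, osm_sn).
(iii) lip_bd (l <= r1), e0^2.
Result: SpD E (u y).1 for y in ball x0 (3/4 l); r := 3/4 l.
-/

set_option autoImplicit false

namespace H36NA

open H50NA H1NA MeasureTheory Set Filter Topology Metric

variable {K : Type} [Field K] (F : VF K) {V : Type} [AddCommGroup V] [Module K V] [Module.Finite K V]

theorem str1 {u : ℂ → Nm F V} {O : Set ℂ} (hu : LM u O) {x0 : ℂ} (hx : x0 ∈ O) {N : ℕ}
    {E : Fin N → Submodule K V} {a : Fin N → ℂ} (hB : Blow F u x0 N E a) :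
    ∃ r : ℝ, 0 < r ∧ ball x0 r ⊆ O ∧ ∀ y ∈ ball x0 r, SpD E (u y).1 := by
  obtain ⟨e0, he0, r0, hr0, hmain⟩ := main_lemma F hB.int hB.nz hB.inj
  obtain ⟨r1, hr1, hsub1, hlip⟩ := lip_bd F hu hx hB he0
  obtain ⟨R0, hR0, hsub0⟩ := Metric.isOpen_iff.1 hu.opn x0 hx
  obtain ⟨m, hm⟩ : ∃ m : ℝ, m = (Module.finrank K V : ℝ) := ⟨_, rfl⟩
  have hm0 : 0 ≤ m := by rw [hm]; positivity
  obtain ⟨ep, hep⟩ : ∃ x : ℝ, x = e0 / (2 * (m + 1)) := ⟨_, rfl⟩
  have hep0 : 0 < ep := by rw [hep]; positivity
  have hep1 : (m + 1) * (2 * ep) = e0 := by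
    rw [hep]
    field_simp
  obtain ⟨l, hl, hlr, happ⟩ := hB.app ep hep0 (min r0 (min r1 R0)) (by positivity)
  have hl0 : l < r0 := lt_of_lt_of_le hlr (min_le_left _ _)
  have hl1 : l < r1 := lt_of_lt_of_le hlr ((min_le_right _ _).trans (min_le_left _ _))
  have hl2 : l < R0 := lt_of_lt_of_le hlr ((min_le_right _ _).trans (min_le_right _ _))
  have hsub : ball x0 l ⊆ O := (ball_subset_ball hl2.le).trans hsub0
  have hq := (u x0).2
  -- closeness
  have hcl : ∀ y ∈ ball x0 l, ∀ v : V, |afm E (u x0).1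
      (fun b => (a b).re * (y - x0).re + (a b).im * (y - x0).im) v - (u y).1 v| ≤ ep * l := by
    intro y hy v
    by_cases hv : v = 0
    · rw [hv, (afm_sn F hB.int hq _).1, (u y).2.1, sub_self, abs_zero]
      positivity
    · rw [abs_sub_comm]
      exact happ y (mem_ball.1 hy).le v hv
  have hnn : ∀ b, (Module.finrank K (E b) : ℝ) ≤ m := by
    intro b
    rw [hm]
    exact_mod_cast Submodule.finrank_le (E b)
  refine ⟨3 / 4 * l, by positivity, (ball_subset_ball (by linarith)).trans hsub, ?_⟩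
  refine hmain u x0 l hl hl0.le (lm_mono hu isOpen_ball hsub) ?_ ?_ ?_
  · intro b y hy
    have s1 : SN F (rs (E b) (u x0).1) := rs_sn F (E b) (u x0).2
    have s2 : SN F (rs (E b) (afm E (u x0).1
      (fun b => (a b).re * (y - x0).re + (a b).im * (y - x0).im))) :=
        rs_sn F (E b) (afm_sn F hB.int hq _)
    have s3 : SN F (rs (E b) (u y).1) := rs_sn F (E b) (u y).2
    have e1 := rd_afm F hB.int hq (fun _ => 0)
      (fun b => (a b).re * (y - x0).re + (a b).im * (y - x0).im) b
    rw [afm_zero F hB.int hq hB.spl, sub_zero] at e1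
    rw [rd_add F s1 s2 s3, e1, add_sub_cancel_left]
    have e2 := rd_le_sup F s2 s3 (c := ep * l) fun v _ => by
      have := hcl y hy v
      rw [abs_sub_comm] at this
      exact this
    refine e2.trans ?_
    calc (Module.finrank K (E b) : ℝ) * (ep * l) ≤ (m + 1) * (2 * ep) * l := by
          have h1 := hnn b
          have h2 : 0 < ep * l := by positivity
          nlinarith
      _ = e0 * l := by rw [hep1]
  · intro y hy
    have h1 := rd_le_sup F (osm_sn F hB.int (u y).2) (u y).2 (c := 2 * (ep * l)) fun v hv =>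
      osm_near7 F hB.int (u y).2 (afm_sn F hB.int hq _) (afm_spd F hB.int hq _).1 (hcl y hy) v hv
    refine (le_abs_self _).trans (h1.trans ?_)
    rw [← hm]
    calc m * (2 * (ep * l)) ≤ (m + 1) * (2 * ep) * l := by
          have h2 : 0 < ep * l := by positivity
          nlinarith
      _ = e0 * l := by rw [hep1]
  · intro x hx y hy
    exact hlip x (ball_subset_ball hl1.le hx) y (ball_subset_ball hl1.le hy)

end H36NA
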