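import Pool.Agent.H36.NA.Sd

set_option autoImplicit false

/-!
# Row B9Se (MP_b319aa_NA, B9): the degree functions are harmonic (about 170 lines)

PROOF. r from str1. T b z := rd (rs (E b) (u x0).1) (rs (E b) (u z).1) / nn E b (nn E b >= 1 as E b is not ⊥: Submodule.one_le_finrank_iff, hB.nz). O' := ball x0 r, LM u O' (lm_mono).
* rd (rs (u y))(rs (u z)) = nn E b (T b z - T b y): rd_add for x0, y, z, and rd al be = - rd be al (from rd_add with be = al and rd al al = 0, or directly rd (rs u x0)(rs u z) = rd (rs u x0)(rs u y) + rd (rs u y)(rs u z)).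
* - T b is SubH on O': deg_sup with W = E b, om = (u x0).1, multiplied by 1/nn (H46SB.SubH.smul).
* T b is SubH on O': for z in O' u z is split along E: rd (u x0)(u z) = ∑_b rd (rs (E b)(u x0))(rs (E b)(u z)) (osm E al = al for split norms: spd_iff; rd_osm). So nn E b * T b z = rd (u x0)(u z) + ∑_{b' <> b} (- rd (rs (E b')(u x0))(rs (E b')(u z)))
  on O', a sum of SubH functions (deg_top, deg_sup; H46SB.SubH.add, SubH.congr, induction on the Finset as in L6_sum).
* H46SB.harm_of_two: HarmonicOnNhd (T b) O'. (H46SB.harm_of_two is in Pool/Agent/H46/SB/Mg.lean, imported through Mk.)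
* gr (T b) x0 = a b: T b is differentiable at x0 (harmonic functions are C^2: HarmonicAt is ContDiffAt ℝ 2 and the Laplacian vanishes; (h x0 _).1.differentiableAt). For t : ℂ let D := fderiv ℝ (T b) x0 t; (T b (x0 + s t) - T b x0)/s -> D as s -> 0+.
  For ep > 0 and arbitrarily small l (hB.app) and t with ‖t‖ <= 1: |(u (x0 + l t)).1 x - Lm x| <= ep l, Lm := afm E q (l ip (a b) t), so |nn (T b (x0 + l t) - T b x0) - nn l ip (a b) t| <= m ep l (as in row B9Sd (i): rd_add, rd_afm, afm_zero,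
  rd_le_sup). Hence |D - ip (a b) t| <= m ep + o(1), so D = ip (a b) t for ‖t‖ <= 1. Take t = 1 and t = I: gr (T b) x0 = a b (Complex.ext; ip (a b) 1 = re, ip (a b) I = im).
-/

namespace H36NA

open H50NA H1NA MeasureTheory Set Filter Topology Metric InnerProductSpace

variable {K : Type} [Field K] (F : VF K) {V : Type} [AddCommGroup V] [Module K V] [Module.Finite K V]

theorem Se_sum {ι : Type} (s : Finset ι) {f : ι → ℂ → ℝ} {O : Set ℂ}
    (h : ∀ i ∈ s, SubH (f i) O) : SubH (fun z => ∑ i ∈ s, f i z) O := by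
  classical
  induction s using Finset.induction_on with
  | empty =>
    have h1 := H46SB.SubH.const 0 O
    simpa using h1
  | insert i s hi ih =>
    have h1 : (fun z => ∑ j ∈ insert i s, f j z) = fun z => f i z + ∑ j ∈ s, f j z := by
      funext z
      rw [Finset.sum_insert hi]
    rw [h1]
    exact H46SB.SubH.add (h i (Finset.mem_insert_self i s))
      (ih fun j hj => h j (Finset.mem_insert_of_mem hj))

theorem Se_grad {u : ℂ → Nm F V} {x0 : ℂ} {N : ℕ} {E : Fin N → Submodule K V} {a : Fin N → ℂ}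
    (hB : Blow F u x0 N E a) {b : Fin N} {T : ℂ → ℝ} (hn : 1 ≤ Module.finrank K (E b))
    (hT : ∀ z, nn E b * T z = rd F (rs (E b) (u x0).1) (rs (E b) (u z).1))
    (hd : DifferentiableAt ℝ T x0) (t : ℂ) (ht : ‖t‖ ≤ 1) : fderiv ℝ T x0 t = ip (a b) t := by
  have hnn : 0 < nn E b := by
    unfold nn
    exact_mod_cast hn
  have hq := (u x0).2
  have key : ∀ ε : ℝ, 0 < ε → |fderiv ℝ T x0 t - ip (a b) t| ≤ ε := by
    intro ε hε
    have h1 := (Asymptotics.isLittleO_iff.1 hd.hasFDerivAt.isLittleO) (half_pos hε)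
    obtain ⟨δ, hδ, h2⟩ := Metric.eventually_nhds_iff.1 h1
    obtain ⟨l, hl0, hlδ, hl⟩ := hB.app (ε / 2) (half_pos hε) δ hδ
    obtain ⟨y, hy⟩ : ∃ y : ℂ, y = x0 + (l : ℂ) * t := ⟨_, rfl⟩
    have hyx : y - x0 = (l : ℂ) * t := by rw [hy]; ring
    have hnorm : ‖y - x0‖ ≤ l := by
      rw [hyx, norm_mul, Complex.norm_real, Real.norm_eq_abs, abs_of_pos hl0]
      nlinarith [norm_nonneg t]
    have hdist : dist y x0 ≤ l := by
      rw [dist_eq_norm]
      exact hnorm
    have h3 := h2 (lt_of_le_of_lt hdist hlδ)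
    have hLsmul : fderiv ℝ T x0 (y - x0) = l * fderiv ℝ T x0 t := by
      have e : (l : ℂ) * t = l • t := by
        rw [Complex.real_smul]
      rw [hyx, e, map_smul, smul_eq_mul]
    rw [hLsmul, Real.norm_eq_abs] at h3
    have hT0 : T x0 = 0 := by
      have h4 := hT x0
      rw [rd_self7 F (rs_sn F (E b) hq)] at h4
      rcases mul_eq_zero.1 h4 with h5 | h5
      · exact absurd h5 hnn.ne'
      · exact h5
    -- the norm Lm
    obtain ⟨Lm, hLm⟩ : ∃ Lm : V → ℝ, Lm = afm E (u x0).1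
        (fun b => (a b).re * (y - x0).re + (a b).im * (y - x0).im) := ⟨_, rfl⟩
    have hLsn : SN F Lm := by
      rw [hLm]
      exact afm_sn F hB.int hq _
    have hclose : |rd F (rs (E b) Lm) (rs (E b) (u y).1)| ≤
        Module.finrank K (E b) * (ε / 2 * l) := by
      refine rd_le_sup F (rs_sn F (E b) hLsn) (rs_sn F (E b) (u y).2) ?_
      intro x hx0
      have hx1 : (x : V) ≠ 0 := fun h => hx0 (Subtype.ext h)
      have h5 := hl y hdist (x : V) hx1
      rw [← hLm] at h5
      exact h5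
    have hfirst : rd F (rs (E b) (u x0).1) (rs (E b) Lm) = nn E b * (l * ip (a b) t) := by
      have h5 := rd_afm F hB.int hq (fun _ => 0)
        (fun b => (a b).re * (y - x0).re + (a b).im * (y - x0).im) b
      rw [afm_zero F hB.int hq hB.spl, ← hLm] at h5
      rw [h5, sub_zero]
      have h6 : (a b).re * (y - x0).re + (a b).im * (y - x0).im = ip (a b) (y - x0) := rfl
      rw [h6, hyx, ip_smul]
    have hadd := rd_add F (rs_sn F (E b) hq) (rs_sn F (E b) hLsn) (rs_sn F (E b) (u y).2)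
    rw [hfirst, ← hT y] at hadd
    have h7 : |T y - l * ip (a b) t| ≤ ε / 2 * l := by
      have e : nn E b * (T y - l * ip (a b) t) = rd F (rs (E b) Lm) (rs (E b) (u y).1) := by
        linarith
      rw [← e, abs_mul, abs_of_pos hnn] at hclose
      exact le_of_mul_le_mul_left hclose hnn
    rw [hT0, sub_zero] at h3
    have h8 : |T y - l * fderiv ℝ T x0 t| ≤ ε / 2 * l :=
      h3.trans (mul_le_mul_of_nonneg_left hnorm (half_pos hε).le)
    have h9 : |l * (fderiv ℝ T x0 t - ip (a b) t)| ≤ l * ε := by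
      have h10 := abs_le.1 h7
      have h11 := abs_le.1 h8
      rw [abs_le]
      constructor <;> nlinarith
    rw [abs_mul, abs_of_pos hl0] at h9
    exact le_of_mul_le_mul_left h9 hl0
  have h0 : |fderiv ℝ T x0 t - ip (a b) t| ≤ 0 := le_of_forall_pos_le_add fun ε hε => by
    rw [zero_add]
    exact key ε hε
  have h1 := abs_nonpos_iff.1 h0
  linarith

theorem str2 {u : ℂ → Nm F V} {O : Set ℂ} (hu : LM u O) {x0 : ℂ} (hx : x0 ∈ O) {N : ℕ}
    {E : Fin N → Submodule K V} {a : Fin N → ℂ} (hB : Blow F u x0 N E a) :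
    ∃ r : ℝ, 0 < r ∧ ball x0 r ⊆ O ∧ (∀ y ∈ ball x0 r, SpD E (u y).1) ∧
      ∃ T : Fin N → ℂ → ℝ, (∀ b, HarmonicOnNhd (T b) (ball x0 r)) ∧
        (∀ b, ∀ y ∈ ball x0 r, ∀ z ∈ ball x0 r,
          rd F (rs (E b) (u y).1) (rs (E b) (u z).1) = nn E b * (T b z - T b y)) ∧
        ∀ b, gr (T b) x0 = a b := by
  classical
  obtain ⟨r, hr, hrO, hsp⟩ := str1 F hu hx hB
  have hE := hB.int
  have hLM : LM u (ball x0 r) := lm_mono hu isOpen_ball hrO
  have hn1 : ∀ b, 1 ≤ Module.finrank K (E b) := fun b => Submodule.one_le_finrank_iff.2 (hB.nz b)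
  have hnn : ∀ b, 0 < nn E b := by
    intro b
    unfold nn
    exact_mod_cast hn1 b
  obtain ⟨T, hT⟩ : ∃ T : Fin N → ℂ → ℝ, ∀ b z, T b z =
      (1 / nn E b) * rd F (rs (E b) (u x0).1) (rs (E b) (u z).1) := ⟨_, fun _ _ => rfl⟩
  have hT' : ∀ b z, nn E b * T b z = rd F (rs (E b) (u x0).1) (rs (E b) (u z).1) := by
    intro b z
    rw [hT, ← mul_assoc, mul_one_div_cancel (hnn b).ne', one_mul]
  have hsub : ∀ b, SubH (fun z => - rd F (rs (E b) (u x0).1) (rs (E b) (u z).1)) (ball x0 r) :=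
    fun b => deg_sup F (E b) hLM (u x0).2
  have hneg : ∀ b, SubH (fun z => - T b z) (ball x0 r) := by
    intro b
    have h1 := H46SB.SubH.smul (hsub b) (c := 1 / nn E b) (one_div_nonneg.2 (hnn b).le)
    have e : (fun z => - T b z) = fun z =>
        1 / nn E b * (- rd F (rs (E b) (u x0).1) (rs (E b) (u z).1)) := by
      funext z
      rw [hT]
      ring
    rw [e]
    exact h1
  have htop := (deg_top F hLM (u x0).2).1
  have hx0r : x0 ∈ ball x0 r := mem_ball_self hr
  have hsum : ∀ z ∈ ball x0 r, rd F (u x0).1 (u z).1 =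
      ∑ b, rd F (rs (E b) (u x0).1) (rs (E b) (u z).1) := by
    intro z hz
    have h1 := rd_osm F hE (u x0).2 (u z).2
    rw [(spd_iff F hE (u x0).2).1 (hsp x0 hx0r), (spd_iff F hE (u z).2).1 (hsp z hz)] at h1
    exact h1
  have hpos : ∀ b, SubH (T b) (ball x0 r) := by
    intro b
    have h1 := H46SB.SubH.smul (H46SB.SubH.add htop
      (Se_sum (Finset.univ.erase b) (fun b' _ => hsub b'))) (c := 1 / nn E b)
      (one_div_nonneg.2 (hnn b).le)
    refine H46SB.SubH.congr h1 ?_
    intro z hz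
    rw [hT, hsum z hz, ← Finset.add_sum_erase Finset.univ
      (fun b' => rd F (rs (E b') (u x0).1) (rs (E b') (u z).1)) (Finset.mem_univ b),
      Finset.sum_neg_distrib, add_neg_cancel_right]
  have hharm : ∀ b, HarmonicOnNhd (T b) (ball x0 r) := fun b =>
    H46SB.harm_of_two isOpen_ball (hpos b) (hneg b)
  refine ⟨r, hr, hrO, hsp, T, hharm, ?_, ?_⟩
  · intro b y hy z hz
    have h1 := rd_add F (rs_sn F (E b) (u x0).2) (rs_sn F (E b) (u y).2) (rs_sn F (E b) (u z).2)
    rw [← hT', ← hT'] at h1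
    linarith
  · intro b
    have hd : DifferentiableAt ℝ (T b) x0 :=
      (hharm b x0 hx0r).1.differentiableAt (by norm_num)
    have h1 := Se_grad F hB (hn1 b) (hT' b) hd 1 (by simp)
    have h2 := Se_grad F hB (hn1 b) (hT' b) hd Complex.I (by simp)
    unfold gr
    rw [h1, h2]
    unfold ip
    apply Complex.ext <;> simp

end H36NA
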