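import Pool.Agent.H36.NA.Sc
import Pool.Agent.H36.NA.Se

/-!
# Row B9Sf (MP_b319aa_NA, B9): the lists near a blow-up point (about 170 lines)

Given T from str2 (hypotheses hs hT1 hT2 hT3). near_list: for t and del > 0 there is r such that for all y in ball x0 r and all blow-up data (E', a') at y there is a list la b i with (1) ∑_i la b i = nn E b * ip (gr (T b) y) t, (2) ∑∑ φ(la b i) =
∑ nn E' k * φ(ip (a' k) t) for all φ, (3) |la b i - ip (a b) t| <= del for all b i.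
PROOF. Differentiability: T b is C^1 near every point of ball x0 r0 (harmonic: ContDiffAt ℝ 2), fderiv ℝ (T b) is continuous at x0 (ContDiffAt.continuousAt_fderiv or ContDiffAt.fderiv_right), so y ↦ ip (gr (T b) y) t = fderiv ℝ (T b) y t (ip_gr) is continuous
at x0 with value ip (a b) t.
For y in ball x0 r0: hypotheses of lists with g b := ip (gr (T b) y) t: the quotient rd (rs u y)(rs u (y + s t))/s = nn E b * (T b (y + s t) - T b y)/s for small s > 0 (hT2, y + s t in the ball) tends to nn E b * fderiv ℝ (T b) y t. hs near y: a ball around y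
inside ball x0 r0. This gives la with (1), (2).
(3): φ = square in (2): ∑∑ (la b i)^2 = ∑ nn E' k ip (a' k) t ^2 <= ∑ nn E b ip (a b) t ^2 + del1^2 ‖t‖^2 for y near x0 (den_le). ∑_i (la b i - g b)^2 = ∑_i la^2 - 2 g ∑ la + nn g^2 = ∑_i la^2 - nn E b g b^2 (Fin (finrank (E b)) has nn E b elements). So
∑∑ (la b i - g b)^2 <= del1^2 ‖t‖^2 + ∑ nn E b (ip (a b) t ^2 - g b ^2) <= (del/2)^2 for del1 small ((del1 (1+‖t‖))^2 <= (del/2)^2/2) and y near x0; each term is <= (del/2)^2, so |la b i - g b| <= del/2, and |g b - ip (a b) t| <= del/2 near x0.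
near_pwr: with j and ep: pwr E' a' j t - pwr E a j t = ∑_b ∑_i ((la b i)^j - (ip (a b) t)^j) ((2) with φ = power j); continuity of x ↦ x^j at the finitely many numbers ip (a b) t: choose del such that |x - ip (a b) t| <= del implies
|x^j - (ip (a b) t)^j| <= ep/(m + 1), m = finrank K V >= ∑ finrank (E b) (the number of pairs (b,i) is ∑ finrank (E b) = m, as in L4: hsum). T for near_pwr: from str2.
-/

set_option autoImplicit false

namespace H36NA

open H50NA H1NA MeasureTheory Set Filter Topology Metric InnerProductSpace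

variable {K : Type} [Field K] (F : VF K) {V : Type} [AddCommGroup V] [Module K V] [Module.Finite K V]

theorem B9Sf_cont {T : ℂ → ℝ} {x0 : ℂ} (h : ContDiffAt ℝ 2 T x0) (t : ℂ) :
    ContinuousAt (fun y => ip (gr T y) t) x0 := by
  have h1 : ContDiffAt ℝ 1 (fderiv ℝ T) x0 := h.fderiv_right (by norm_num)
  have h2 : ContinuousAt (fderiv ℝ T) x0 := h1.continuousAt
  have h3 : (fun y => ip (gr T y) t) = fun y => fderiv ℝ T y t := by
    funext y
    exact ip_gr T y t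
  rw [h3]
  exact h2.clm_apply continuousAt_const

theorem B9Sf_slope {T : ℂ → ℝ} {y : ℂ} (h : DifferentiableAt ℝ T y) (t : ℂ) :
    Tendsto (fun s : ℝ => (T (y + (s : ℂ) * t) - T y) / s) (𝓝[>] 0) (𝓝 (ip (gr T y) t)) := by
  rw [ip_gr]
  have h1 : HasDerivAt (fun s : ℝ => y + (s : ℂ) * t) t 0 := by
    have h2 : HasDerivAt (fun s : ℝ => y + s • t) t 0 := by
      simpa using ((hasDerivAt_id (0:ℝ)).smul_const t).const_add y
    simpa using h2
  have h3 : HasFDerivAt T (fderiv ℝ T y) (y + ((0:ℝ) : ℂ) * t) := by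
    rw [Complex.ofReal_zero, zero_mul, add_zero]
    exact h.hasFDerivAt
  have h4 := (h3.comp_hasDerivAt (0:ℝ) h1).tendsto_slope_zero_right
  refine h4.congr fun s => ?_
  simp only [Function.comp_apply, zero_add, Complex.ofReal_zero, zero_mul, add_zero, smul_eq_mul]
  rw [div_eq_inv_mul]

theorem B9Sf_sq {ι : Type} [Fintype ι] (la : ι → ℝ) (g : ℝ) (h : ∑ i, la i = Fintype.card ι * g) :
    ∑ i, (la i - g) ^ 2 = ∑ i, la i ^ 2 - Fintype.card ι * g ^ 2 := by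
  have h1 : ∀ i, (la i - g) ^ 2 = la i ^ 2 - 2 * g * la i + g ^ 2 := fun i => by ring
  simp only [h1]
  rw [Finset.sum_add_distrib, Finset.sum_sub_distrib, ← Finset.mul_sum, h, Finset.sum_const,
    Finset.card_univ, nsmul_eq_mul]
  ring

theorem near_list {u : ℂ → Nm F V} {O : Set ℂ} (hu : LM u O) {x0 : ℂ} (hx : x0 ∈ O) {N : ℕ}
    {E : Fin N → Submodule K V} {a : Fin N → ℂ} (hB : Blow F u x0 N E a) {r0 : ℝ} (hr0 : 0 < r0)
    (hs : ∀ y ∈ ball x0 r0, SpD E (u y).1) {T : Fin N → ℂ → ℝ}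
    (hT1 : ∀ b, HarmonicOnNhd (T b) (ball x0 r0))
    (hT2 : ∀ b, ∀ y ∈ ball x0 r0, ∀ z ∈ ball x0 r0,
      rd F (rs (E b) (u y).1) (rs (E b) (u z).1) = nn E b * (T b z - T b y))
    (hT3 : ∀ b, gr (T b) x0 = a b) (t : ℂ) {del : ℝ} (hdel : 0 < del) :
    ∃ r : ℝ, 0 < r ∧ r ≤ r0 ∧ ball x0 r ⊆ O ∧ ∀ y ∈ ball x0 r, ∀ (N' : ℕ)
      (E' : Fin N' → Submodule K V) (a' : Fin N' → ℂ), Blow F u y N' E' a' →
      ∃ la : (b : Fin N) → Fin (Module.finrank K (E b)) → ℝ,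
        (∀ b, ∑ i, la b i = nn E b * ip (gr (T b) y) t) ∧
        (∀ φ : ℝ → ℝ, ∑ b, ∑ i, φ (la b i) = ∑ k, nn E' k * φ (ip (a' k) t)) ∧
        ∀ b i, |la b i - ip (a b) t| ≤ del := by
  have hx0r : x0 ∈ ball x0 r0 := mem_ball_self hr0
  have hcont : ∀ b, ContinuousAt (fun y => ip (gr (T b) y) t) x0 := fun b =>
    B9Sf_cont (hT1 b x0 hx0r).1 t
  have hval : ∀ b, ip (gr (T b) x0) t = ip (a b) t := fun b => by rw [hT3 b]
  -- del1
  obtain ⟨del1, hdel1, hdel1'⟩ : ∃ del1 : ℝ, 0 < del1 ∧ del1 ^ 2 * ‖t‖ ^ 2 ≤ del ^ 2 / 8 := by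
    refine ⟨del / (4 * (1 + ‖t‖)), by positivity, ?_⟩
    have h1 : 0 < 1 + ‖t‖ := by positivity
    have h2 : ‖t‖ ≤ 1 + ‖t‖ := by linarith
    have h3 : del / (4 * (1 + ‖t‖)) * ‖t‖ ≤ del / 4 := by
      rw [div_mul_eq_mul_div, div_le_div_iff₀ (by positivity) (by norm_num)]
      nlinarith [mul_le_mul_of_nonneg_left h2 hdel.le]
    have h4 : 0 ≤ del / (4 * (1 + ‖t‖)) * ‖t‖ := by positivity
    rw [← mul_pow]
    calc (del / (4 * (1 + ‖t‖)) * ‖t‖) ^ 2 ≤ (del / 4) ^ 2 := pow_le_pow_left₀ h4 h3 2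
      _ ≤ del ^ 2 / 8 := by nlinarith [sq_nonneg del]
  obtain ⟨r1, hr1, hr1O, hden⟩ := H1NA.den_le F hu hx hB hdel1
  -- continuity
  have hG : ContinuousAt (fun y => ∑ b, nn E b * (ip (a b) t ^ 2 - ip (gr (T b) y) t ^ 2)) x0 := by
    apply tendsto_finsetSum
    intro b _
    exact (((continuousAt_const (y := ip (a b) t ^ 2)).sub ((hcont b).pow 2))).const_mul (nn E b)
  have hG0 : ∑ b, nn E b * (ip (a b) t ^ 2 - ip (gr (T b) x0) t ^ 2) = 0 := by
    simp [hval]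
  have hev1 : ∀ᶠ y in 𝓝 x0, ∑ b, nn E b * (ip (a b) t ^ 2 - ip (gr (T b) y) t ^ 2) < del ^ 2 / 8 := by
    have h1 : Tendsto (fun y => ∑ b, nn E b * (ip (a b) t ^ 2 - ip (gr (T b) y) t ^ 2)) (𝓝 x0) (𝓝 0) := by
      have h2 := hG.tendsto
      rwa [hG0] at h2
    exact h1.eventually (gt_mem_nhds (by positivity))
  have hev2 : ∀ᶠ y in 𝓝 x0, ∀ b, |ip (gr (T b) y) t - ip (a b) t| < del / 2 := by
    rw [eventually_all]
    intro b
    have h1 : Tendsto (fun y => ip (gr (T b) y) t) (𝓝 x0) (𝓝 (ip (gr (T b) x0) t)) := hcont b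
    rw [hval b] at h1
    have h2 := (Metric.tendsto_nhds.1 h1) (del / 2) (by positivity)
    filter_upwards [h2] with y hy
    rwa [Real.dist_eq] at hy
  obtain ⟨r2, hr2, hr2'⟩ := Metric.eventually_nhds_iff_ball.1 (hev1.and hev2)
  refine ⟨min r0 (min r1 r2), lt_min hr0 (lt_min hr1 hr2), min_le_left _ _,
    (ball_subset_ball ((min_le_right _ _).trans (min_le_left _ _))).trans hr1O, ?_⟩
  intro y hy N' E' a' hB'
  have hy0 : y ∈ ball x0 r0 := ball_subset_ball (min_le_left _ _) hy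
  have hy1 : y ∈ ball x0 r1 := ball_subset_ball ((min_le_right _ _).trans (min_le_left _ _)) hy
  have hy2 : y ∈ ball x0 r2 := ball_subset_ball ((min_le_right _ _).trans (min_le_right _ _)) hy
  obtain ⟨hev1y, hev2y⟩ := hr2' y hy2
  have hrho : 0 < r0 - dist y x0 := by
    have := mem_ball.1 hy0
    linarith
  have hsub : ball y (r0 - dist y x0) ⊆ ball x0 r0 := ball_subset_ball' (by linarith)
  have hg : ∀ b, Tendsto (fun s : ℝ =>
      rd F (rs (E b) (u y).1) (rs (E b) (u (y + (s : ℂ) * t)).1) / s) (𝓝[>] 0)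
      (𝓝 (nn E b * ip (gr (T b) y) t)) := by
    intro b
    have hd : DifferentiableAt ℝ (T b) y := (hT1 b y hy0).1.differentiableAt (by norm_num)
    have h1 := (B9Sf_slope hd t).const_mul (nn E b)
    refine h1.congr' ?_
    have h2 : Tendsto (fun s : ℝ => y + (s : ℂ) * t) (𝓝[>] 0) (𝓝 y) := by
      have h3 : Continuous (fun s : ℝ => y + (s : ℂ) * t) := by fun_prop
      have h4 := h3.tendsto 0
      rw [Complex.ofReal_zero, zero_mul, add_zero] at h4
      exact h4.mono_left nhdsWithin_le_nhds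
    filter_upwards [h2.eventually (isOpen_ball.mem_nhds hy0)] with s hsb
    rw [hT2 b y hy0 _ hsb]
    ring
  obtain ⟨la, hla1, hla2⟩ := lists F hB' hB.int hrho (fun z hz => hs z (hsub hz)) t hg
  refine ⟨la, hla1, hla2, ?_⟩
  have hsq := hla2 (fun x => x ^ 2)
  have hden' := hden y hy1 N' E' a' hB' t
  have hden2 : ∑ b, ∑ i, la b i ^ 2 ≤ ∑ b, nn E b * ip (a b) t ^ 2 + del1 ^ 2 * ‖t‖ ^ 2 := by
    rw [hsq]
    exact hden'
  have hid : ∀ b, ∑ i, (la b i - ip (gr (T b) y) t) ^ 2 =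
      ∑ i, la b i ^ 2 - nn E b * ip (gr (T b) y) t ^ 2 := by
    intro b
    have h1 : ((Fintype.card (Fin (Module.finrank K (E b))) : ℕ) : ℝ) = nn E b := by
      rw [Fintype.card_fin]
      rfl
    have h2 := B9Sf_sq (la b) (ip (gr (T b) y) t) (by rw [h1]; exact hla1 b)
    rw [h1] at h2
    exact h2
  have htot : ∑ b, ∑ i, (la b i - ip (gr (T b) y) t) ^ 2 ≤ (del / 2) ^ 2 := by
    have h1 : ∑ b, ∑ i, (la b i - ip (gr (T b) y) t) ^ 2 =
        ∑ b, ∑ i, la b i ^ 2 - ∑ b, nn E b * ip (gr (T b) y) t ^ 2 := by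
      rw [← Finset.sum_sub_distrib]
      exact Finset.sum_congr rfl fun b _ => hid b
    have h2 : ∑ b, nn E b * (ip (a b) t ^ 2 - ip (gr (T b) y) t ^ 2) =
        ∑ b, nn E b * ip (a b) t ^ 2 - ∑ b, nn E b * ip (gr (T b) y) t ^ 2 := by
      rw [← Finset.sum_sub_distrib]
      exact Finset.sum_congr rfl fun b _ => by ring
    rw [h1]
    have h3 : (del / 2) ^ 2 = del ^ 2 / 8 + del ^ 2 / 8 := by ring
    rw [h3]
    linarith
  intro b i
  have h1 : (la b i - ip (gr (T b) y) t) ^ 2 ≤ ∑ i, (la b i - ip (gr (T b) y) t) ^ 2 :=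
    Finset.single_le_sum (f := fun i => (la b i - ip (gr (T b) y) t) ^ 2) (fun i _ => sq_nonneg _)
      (Finset.mem_univ i)
  have h2 : ∑ i, (la b i - ip (gr (T b) y) t) ^ 2 ≤ ∑ b, ∑ i, (la b i - ip (gr (T b) y) t) ^ 2 :=
    Finset.single_le_sum (f := fun b => ∑ i, (la b i - ip (gr (T b) y) t) ^ 2)
      (fun b _ => Finset.sum_nonneg fun i _ => sq_nonneg _) (Finset.mem_univ b)
  have h3 : |la b i - ip (gr (T b) y) t| ≤ del / 2 :=
    abs_le_of_sq_le_sq ((h1.trans h2).trans htot) (by positivity)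
  have h4 := (hev2y b).le
  have h5 : la b i - ip (a b) t = (la b i - ip (gr (T b) y) t) + (ip (gr (T b) y) t - ip (a b) t) := by ring
  rw [h5]
  have h6 := abs_add_le (la b i - ip (gr (T b) y) t) (ip (gr (T b) y) t - ip (a b) t)
  linarith

theorem B9Sf_del {N : ℕ} (c : Fin N → ℝ) (j : ℕ) {e : ℝ} (he : 0 < e) :
    ∃ del : ℝ, 0 < del ∧ ∀ b, ∀ x : ℝ, |x - c b| ≤ del → |x ^ j - c b ^ j| ≤ e := by
  have h1 : ∀ b, ∀ᶠ d : ℝ in 𝓝[>] 0, ∀ x : ℝ, |x - c b| ≤ d → |x ^ j - c b ^ j| ≤ e := by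
    intro b
    have h2 : ContinuousAt (fun x : ℝ => x ^ j) (c b) := (continuous_pow j).continuousAt
    obtain ⟨δ, hδ, hδ'⟩ := Metric.continuousAt_iff.1 h2 e he
    have h3 : ∀ᶠ d : ℝ in 𝓝[>] 0, d < δ := nhdsWithin_le_nhds (gt_mem_nhds hδ)
    filter_upwards [h3] with d hd x hx
    have h4 := hδ' (x := x) (by rw [Real.dist_eq]; linarith)
    rw [Real.dist_eq] at h4
    exact h4.le
  have h5 : ∀ᶠ d : ℝ in 𝓝[>] 0, ∀ b, ∀ x : ℝ, |x - c b| ≤ d → |x ^ j - c b ^ j| ≤ e :=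
    eventually_all.2 h1
  have h6 : ∀ᶠ d : ℝ in 𝓝[>] 0, 0 < d := eventually_mem_nhdsWithin
  obtain ⟨d, hd1, hd2⟩ := (h5.and h6).exists
  exact ⟨d, hd2, hd1⟩

theorem near_pwr {u : ℂ → Nm F V} {O : Set ℂ} (hu : LM u O) {x0 : ℂ} (hx : x0 ∈ O) {N : ℕ}
    {E : Fin N → Submodule K V} {a : Fin N → ℂ} (hB : Blow F u x0 N E a) (j : ℕ) (t : ℂ) {ep : ℝ}
    (hep : 0 < ep) : ∃ r : ℝ, 0 < r ∧ ball x0 r ⊆ O ∧ ∀ y ∈ ball x0 r, ∀ (N' : ℕ)
      (E' : Fin N' → Submodule K V) (a' : Fin N' → ℂ), Blow F u y N' E' a' →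
      |pwr E' a' j t - pwr E a j t| ≤ ep := by
  obtain ⟨r0, hr0, hr0O, hs, T, hT1, hT2, hT3⟩ := str2 F hu hx hB
  obtain ⟨M, hM⟩ : ∃ M : ℝ, M = ∑ b, nn E b := ⟨_, rfl⟩
  have hM0 : 0 ≤ M := by
    rw [hM]
    exact Finset.sum_nonneg fun b _ => Nat.cast_nonneg _
  obtain ⟨del, hdel, hdel'⟩ := B9Sf_del (fun b => ip (a b) t) j (e := ep / (M + 1)) (by positivity)
  obtain ⟨r, hr, hrr, hrO, h⟩ := near_list F hu hx hB hr0 hs hT1 hT2 hT3 t hdel
  refine ⟨r, hr, hrO, ?_⟩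
  intro y hy N' E' a' hB'
  obtain ⟨la, hla1, hla2, hla3⟩ := h y hy N' E' a' hB'
  have h1 : pwr E' a' j t = ∑ b, ∑ i, la b i ^ j := (hla2 (fun x => x ^ j)).symm
  have h2 : pwr E a j t = ∑ b, ∑ i : Fin (Module.finrank K (E b)), ip (a b) t ^ j := by
    unfold pwr
    refine Finset.sum_congr rfl fun b _ => ?_
    rw [Finset.sum_const, Finset.card_univ, Fintype.card_fin, nsmul_eq_mul]
    rfl
  rw [h1, h2, ← Finset.sum_sub_distrib]
  have h3 : ∀ b, |∑ i, la b i ^ j - ∑ i : Fin (Module.finrank K (E b)), ip (a b) t ^ j| ≤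
      nn E b * (ep / (M + 1)) := by
    intro b
    rw [← Finset.sum_sub_distrib]
    refine (Finset.abs_sum_le_sum_abs _ _).trans ?_
    refine (Finset.sum_le_sum fun i _ => hdel' b (la b i) (hla3 b i)).trans ?_
    rw [Finset.sum_const, Finset.card_univ, Fintype.card_fin, nsmul_eq_mul]
    exact le_refl _
  refine (Finset.abs_sum_le_sum_abs _ _).trans ?_
  refine (Finset.sum_le_sum fun b _ => h3 b).trans ?_
  rw [← Finset.sum_mul, ← hM]
  have h4 : 0 < M + 1 := by linarith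
  rw [mul_div_assoc', div_le_iff₀ h4]
  nlinarith

end H36NA
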